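import Mathlib
import Pool.Agent.Lib.H32W.Corner
import Pool.Agent.Lib.H52W.Jordan2
import Pool.Agent.Lib.H23D.Unf

/-!
# MP_273810_co, H25D: the corners of a polygon of the dense class (library H42D, helper42)

At every vertex there is a direction of the set `± I E m` strictly inside an open cone which is contained in the interior
near the vertex and all of whose directions give a good arrival.
-/

open Set Metric Filter Topology

namespace Pool.Agent.Lib.H42D

open Pool.Agent.Lib.H42I (Ray IsPolygon Illuminable)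
open Pool.Agent.Lib.H32W (det GoodArr)
open Pool.Agent.Lib.H23D (cr tv E Gon)
open Pool.Agent.H34D (sn cs)

private theorem det_smul' (a b : ℂ) (t : ℝ) : det a ((t : ℂ) * b) = t * det a b := by
  simp only [det, Complex.re_ofReal_mul, Complex.im_ofReal_mul]; ring

private theorem half_convex' (p a : ℂ) (σ : ℝ) : Convex ℝ {y : ℂ | 0 < σ * det a (y - p)} :=
  Pool.Agent.H52W.half_convex p a σ

private theorem ev_ne (c b : ℝ) (hb : b ≠ 0) : ∀ᶠ t in 𝓝[>] (0 : ℝ), c + t * b ≠ 0 := by
  by_cases h0 : c = 0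
  · filter_upwards [self_mem_nhdsWithin] with t ht h1
    rw [h0, zero_add] at h1
    rcases mul_eq_zero.1 h1 with h2 | h2
    · exact (ne_of_gt ht) h2
    · exact hb h2
  · have hc : ContinuousAt (fun t : ℝ => c + t * b) 0 := by fun_prop
    have := hc.eventually_ne (by simpa using h0)
    exact this.filter_mono nhdsWithin_le_nhds

/-- A corner with non-parallel sides: the convex sector between the two sides, or the opposite of it, lies in the interior
near the vertex. -/
theorem corner_sector {n : ℕ} {P : Set ℂ} {v : ZMod n → ℂ} (h : IsPolygon P v) (i : ZMod n)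
    (hD : det (v i - v (i - 1)) (v (i + 1) - v i) ≠ 0) :
    ∃ σ : ℝ, (σ = 1 ∨ σ = -1) ∧ ∃ r > 0, ∀ x : ℂ, ‖x‖ < r →
      0 < σ * det (v i - v (i - 1)) (v (i + 1) - v i) * det (v i - v (i - 1)) x →
      0 < σ * det (v i - v (i - 1)) (v (i + 1) - v i) * det (v (i + 1) - v i) x → v i + x ∈ interior P := by
  obtain ⟨r, hr, hball⟩ := Pool.Agent.Lib.H32W.vertex_ball h i
  set f := v i - v (i - 1) with hf
  set e := v (i + 1) - v i with he
  set D := det f e with hDdef
  have hef : det e f = - D := by rw [hDdef]; simp only [det]; ring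
  have hff : det f f = 0 := by simp only [det]; ring
  have hee : det e e = 0 := by simp only [det]; ring
  have hDD : 0 < D * D := mul_self_pos.2 hD
  have side1 : ∀ y ∈ segment ℝ (v i) (v (i + 1)), ∃ s : ℝ, 0 ≤ s ∧ y - v i = (s : ℂ) * e := by
    intro y hy
    obtain ⟨s, hs0, _, rfl⟩ := Pool.Agent.H52W.mem_segment_param hy
    exact ⟨s, hs0, by rw [he]; ring⟩
  have side2 : ∀ y ∈ segment ℝ (v (i - 1)) (v i), ∃ s : ℝ, s ≤ 0 ∧ y - v i = (s : ℂ) * f := by
    intro y hy
    obtain ⟨s, _, hs1, rfl⟩ := Pool.Agent.H52W.mem_segment_param hy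
    refine ⟨s - 1, by linarith, by rw [hf]; push_cast; ring⟩
  -- the sectors
  let S : ℝ → Set ℂ := fun σ => ball (v i) r ∩ ({y | 0 < (σ * D) * det f (y - v i)} ∩
    {y | 0 < (σ * D) * det e (y - v i)})
  have hS : ∀ σ, (S σ ∩ interior P).Nonempty → S σ ⊆ interior P := by
    intro σ hne
    refine Pool.Agent.Lib.H32W.near_vertex_conn h i r hball (S σ)
      ((convex_ball _ _).inter ((half_convex' _ _ _).inter (half_convex' _ _ _))) inter_subset_left ?_ ?_ hne
    · rw [Set.disjoint_left]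
      rintro y ⟨_, _, hy⟩ hy'
      obtain ⟨s, _, hs⟩ := side1 y hy'
      have hy1 : 0 < (σ * D) * det e (y - v i) := hy
      rw [hs, det_smul', hee] at hy1
      simp at hy1
    · rw [Set.disjoint_left]
      rintro y ⟨_, hy, _⟩ hy'
      obtain ⟨s, _, hs⟩ := side2 y hy'
      have hy1 : 0 < (σ * D) * det f (y - v i) := hy
      rw [hs, det_smul', hff] at hy1
      simp at hy1
  let H1 : Set ℂ := ball (v i) r ∩ {y | 0 < (-D) * det e (y - v i)}
  let H2 : Set ℂ := ball (v i) r ∩ {y | 0 < (-D) * det f (y - v i)}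
  have hH1 : (H1 ∩ interior P).Nonempty → H1 ⊆ interior P := by
    refine Pool.Agent.Lib.H32W.near_vertex_conn h i r hball H1
      ((convex_ball _ _).inter (half_convex' _ _ _)) inter_subset_left ?_ ?_
    · rw [Set.disjoint_left]
      rintro y ⟨_, hy⟩ hy'
      obtain ⟨s, _, hs⟩ := side1 y hy'
      have hy1 : 0 < (-D) * det e (y - v i) := hy
      rw [hs, det_smul', hee] at hy1
      simp at hy1
    · rw [Set.disjoint_left]
      rintro y ⟨_, hy⟩ hy'
      obtain ⟨s, hs0, hs⟩ := side2 y hy'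
      have hy1 : 0 < (-D) * det e (y - v i) := hy
      rw [hs, det_smul', hef] at hy1
      nlinarith
  have hH2 : (H2 ∩ interior P).Nonempty → H2 ⊆ interior P := by
    refine Pool.Agent.Lib.H32W.near_vertex_conn h i r hball H2
      ((convex_ball _ _).inter (half_convex' _ _ _)) inter_subset_left ?_ ?_
    · rw [Set.disjoint_left]
      rintro y ⟨_, hy⟩ hy'
      obtain ⟨s, hs0, hs⟩ := side1 y hy'
      have hy1 : 0 < (-D) * det f (y - v i) := hy
      rw [hs, det_smul', ← hDdef] at hy1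
      nlinarith
    · rw [Set.disjoint_left]
      rintro y ⟨_, hy⟩ hy'
      obtain ⟨s, _, hs⟩ := side2 y hy'
      have hy1 : 0 < (-D) * det f (y - v i) := hy
      rw [hs, det_smul', hff] at hy1
      simp at hy1
  -- a point of the interior off the two lines
  have hvP : v i ∈ closure (interior P) := by
    have h1 : v i ∈ frontier P := by
      rw [h.frontier_eq]
      exact mem_iUnion.2 ⟨i, left_mem_segment ℝ _ _⟩
    have h2 : IsClosed P := h.compact.isClosed
    rw [h.closure_interior]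
    exact h2.frontier_subset h1
  obtain ⟨z1, hz1, hz2⟩ := mem_closure_iff.1 hvP (ball (v i) r) isOpen_ball (mem_ball_self hr)
  obtain ⟨z0, hz0b, hz0P, hz0e, hz0f⟩ : ∃ z0 ∈ ball (v i) r, z0 ∈ interior P ∧ det e (z0 - v i) ≠ 0 ∧
      det f (z0 - v i) ≠ 0 := by
    have hopen : IsOpen (ball (v i) r ∩ interior P) := isOpen_ball.inter isOpen_interior
    have hc : Tendsto (fun t : ℝ => z1 + (t : ℂ) * (e + f)) (𝓝[>] 0) (𝓝 z1) := by
      have h1 : ContinuousAt (fun t : ℝ => z1 + (t : ℂ) * (e + f)) 0 := by fun_prop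
      have h2 := h1.tendsto
      simp only [Complex.ofReal_zero, zero_mul, add_zero] at h2
      exact h2.mono_left nhdsWithin_le_nhds
    have h1 := hc.eventually (hopen.mem_nhds ⟨hz1, hz2⟩)
    have h2 := ev_ne (det e (z1 - v i)) (-D) (neg_ne_zero.2 hD)
    have h3 := ev_ne (det f (z1 - v i)) D hD
    obtain ⟨t, ⟨ht1, ht2⟩, ht3⟩ := ((h1.and h2).and h3).exists
    refine ⟨_, ht1.1, ht1.2, ?_, ?_⟩
    · intro h4
      apply ht2
      rw [← h4, ← hef]
      simp only [det, Complex.add_re, Complex.add_im, Complex.sub_re, Complex.sub_im, Complex.re_ofReal_mul,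
        Complex.im_ofReal_mul]
      ring
    · intro h4
      apply ht3
      rw [← h4, hDdef]
      simp only [det, Complex.add_re, Complex.add_im, Complex.sub_re, Complex.sub_im, Complex.re_ofReal_mul,
        Complex.im_ofReal_mul]
      ring
  -- a point of the sector `-1`, near the vertex
  have hneg : ((ball (v i) r) ∩ ({y | 0 < ((-1 : ℝ) * D) * det f (y - v i)} ∩
      {y | 0 < ((-1 : ℝ) * D) * det e (y - v i)})).Nonempty := by
    have hc : Tendsto (fun t : ℝ => v i + (t : ℂ) * (f - e)) (𝓝[>] 0) (𝓝 (v i)) := by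
      have h1 : ContinuousAt (fun t : ℝ => v i + (t : ℂ) * (f - e)) 0 := by fun_prop
      have h2 := h1.tendsto
      simp only [Complex.ofReal_zero, zero_mul, add_zero] at h2
      exact h2.mono_left nhdsWithin_le_nhds
    have h1 := hc.eventually (isOpen_ball.mem_nhds (mem_ball_self hr))
    obtain ⟨t, ht1, ht2⟩ := (h1.and self_mem_nhdsWithin).exists
    have ht2' : 0 < t := ht2
    refine ⟨_, ht1, ?_, ?_⟩
    · show 0 < ((-1 : ℝ) * D) * det f (v i + (t : ℂ) * (f - e) - v i)
      have e1 : v i + (t : ℂ) * (f - e) - v i = (t : ℂ) * (f - e) := by ring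
      have e2 : det f (f - e) = - D := by rw [hDdef]; simp only [det, Complex.sub_re, Complex.sub_im]; ring
      rw [e1, det_smul', e2]
      nlinarith [mul_pos ht2' hDD]
    · show 0 < ((-1 : ℝ) * D) * det e (v i + (t : ℂ) * (f - e) - v i)
      have e1 : v i + (t : ℂ) * (f - e) - v i = (t : ℂ) * (f - e) := by ring
      have e2 : det e (f - e) = - D := by
        rw [← hef]; simp only [det, Complex.sub_re, Complex.sub_im]; ring
      rw [e1, det_smul', e2]
      nlinarith [mul_pos ht2' hDD]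
  have hfin : ∀ σ : ℝ, S σ ⊆ interior P → ∀ x : ℂ, ‖x‖ < r → 0 < σ * D * det f x → 0 < σ * D * det e x →
      v i + x ∈ interior P := by
    intro σ hσ x hx h1 h2
    apply hσ
    have e1 : v i + x - v i = x := by ring
    refine ⟨?_, ?_, ?_⟩
    · rw [mem_ball, dist_eq_norm, e1]; exact hx
    · show 0 < (σ * D) * det f (v i + x - v i)
      rw [e1]; exact h1
    · show 0 < (σ * D) * det e (v i + x - v i)
      rw [e1]; exact h2
  have hDe : D * det e (z0 - v i) ≠ 0 := mul_ne_zero hD hz0e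
  have hDf : D * det f (z0 - v i) ≠ 0 := mul_ne_zero hD hz0f
  by_cases h1 : D * det e (z0 - v i) < 0
  · -- the half disc H1
    refine ⟨-1, Or.inr rfl, r, hr, hfin (-1) (hS (-1) ?_)⟩
    have h2 : H1 ⊆ interior P := hH1 ⟨z0, ⟨hz0b, by show 0 < (-D) * det e (z0 - v i); linarith⟩, hz0P⟩
    obtain ⟨y, hy1, hy2, hy3⟩ := hneg
    refine ⟨y, ⟨hy1, hy2, hy3⟩, h2 ⟨hy1, ?_⟩⟩
    have hy3' : 0 < ((-1 : ℝ) * D) * det e (y - v i) := hy3
    show 0 < (-D) * det e (y - v i)
    linarith
  by_cases h3 : D * det f (z0 - v i) < 0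
  · refine ⟨-1, Or.inr rfl, r, hr, hfin (-1) (hS (-1) ?_)⟩
    have h2 : H2 ⊆ interior P := hH2 ⟨z0, ⟨hz0b, by show 0 < (-D) * det f (z0 - v i); linarith⟩, hz0P⟩
    obtain ⟨y, hy1, hy2, hy3⟩ := hneg
    refine ⟨y, ⟨hy1, hy2, hy3⟩, h2 ⟨hy1, ?_⟩⟩
    have hy3' : 0 < ((-1 : ℝ) * D) * det f (y - v i) := hy2
    show 0 < (-D) * det f (y - v i)
    linarith
  · push Not at h1 h3
    refine ⟨1, Or.inl rfl, r, hr, hfin 1 (hS 1 ?_)⟩
    refine ⟨z0, ⟨hz0b, ?_, ?_⟩, hz0P⟩
    · show 0 < ((1 : ℝ) * D) * det f (z0 - v i)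
      rw [one_mul]
      exact lt_of_le_of_ne h3 hDf.symm
    · show 0 < ((1 : ℝ) * D) * det e (z0 - v i)
      rw [one_mul]
      exact lt_of_le_of_ne h1 hDe.symm

/-! ## the directions -/

section
variable {N : ℕ} [NeZero N]

theorem E_int (l : ℤ) : E (l : ZMod N) = tv (2 * Real.pi * l / N) := by
  apply Complex.ext
  · rw [Pool.Agent.Lib.H23D.E_re, Pool.Agent.Lib.H23D.tv_re, Pool.Agent.H34D.cos_int]
  · rw [Pool.Agent.Lib.H23D.E_im, Pool.Agent.Lib.H23D.tv_im, Pool.Agent.H34D.sin_int]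

theorem tv_add (a b : ℝ) : tv (a + b) = tv a * tv b := by
  unfold tv
  rw [← Complex.exp_add]
  congr 1
  push_cast
  ring

theorem tv_half : tv (Real.pi / 2) = Complex.I := by
  apply Complex.ext
  · rw [Pool.Agent.Lib.H23D.tv_re]; simp
  · rw [Pool.Agent.Lib.H23D.tv_im]; simp

theorem tv_neg_half : tv (-(Real.pi / 2)) = -Complex.I := by
  apply Complex.ext
  · rw [Pool.Agent.Lib.H23D.tv_re]; simp
  · rw [Pool.Agent.Lib.H23D.tv_im]; simp

/-- odd multiples of `π / (2 N)` are the directions `± I E m` -/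
theorem tv_mid (hN : Odd N) (j : ℤ) (hj : Odd j) :
    ∃ m : ZMod N, tv (Real.pi * j / (2 * N)) = Complex.I * E m ∨ tv (Real.pi * j / (2 * N)) = -(Complex.I * E m) := by
  have hN0 : (N : ℝ) ≠ 0 := by exact_mod_cast NeZero.ne N
  obtain ⟨a, ha⟩ := hN
  obtain ⟨b, hb⟩ := hj
  by_cases h4 : (j - N) % 4 = 0
  · obtain ⟨m, hm⟩ : ∃ m : ℤ, j = N + 4 * m := ⟨(j - N) / 4, by omega⟩
    refine ⟨(m : ZMod N), Or.inl ?_⟩
    rw [E_int, ← tv_half, ← tv_add]
    congr 1
    rw [hm]
    push_cast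
    field_simp
    ring
  · obtain ⟨m, hm⟩ : ∃ m : ℤ, j = -N + 4 * m := ⟨(j + N) / 4, by omega⟩
    refine ⟨(m : ZMod N), Or.inr ?_⟩
    rw [E_int, ← neg_mul, ← tv_neg_half, ← tv_add]
    congr 1
    rw [hm]
    push_cast
    field_simp
    ring

/-- the sign of `sin (2 π l / N + s π / (2 N))` -/
theorem sin_shift_pos (l : ℤ) (h1 : 0 < l) (h2 : 2 * l < N) (s : ℝ) (hs : s = 1 ∨ s = -1) :
    0 < Real.sin (2 * Real.pi * l / N + s * (Real.pi / (2 * N))) := by
  have hN0 : (0 : ℝ) < N := by exact_mod_cast NeZero.pos N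
  have hpi := Real.pi_pos
  have h1' : (1 : ℝ) ≤ l := by exact_mod_cast h1
  have h2' : 2 * (l : ℝ) + 1 ≤ N := by exact_mod_cast h2
  have e : 2 * Real.pi * l / N + s * (Real.pi / (2 * N)) = Real.pi * (4 * l + s) / (2 * N) := by
    field_simp
    ring
  rw [e]
  apply Real.sin_pos_of_pos_of_lt_pi
  · apply div_pos _ (by positivity)
    apply mul_pos hpi
    rcases hs with hs | hs <;> rw [hs] <;> linarith
  · rw [div_lt_iff₀ (by positivity)]
    apply mul_lt_mul_of_pos_left _ hpi
    rcases hs with hs | hs <;> rw [hs] <;> linarith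

/-- A sector between a line of direction `E k` and one of direction `E k'` contains a direction `± I E m`. -/
theorem exists_mid (hN : Odd N) (k k' : ZMod N) (hk : k ≠ k') (a b : ℝ) (ha : a ≠ 0) (hb : b ≠ 0) :
    ∃ (m : ZMod N) (τ : ℝ), (τ = 1 ∨ τ = -1) ∧
      0 < det ((b : ℂ) * E k') ((a : ℂ) * E k) * det ((b : ℂ) * E k') ((τ : ℂ) * (Complex.I * E m)) ∧
      0 < det ((b : ℂ) * E k') ((a : ℂ) * E k) * det ((a : ℂ) * E k) ((τ : ℂ) * (Complex.I * E m)) := by
  have hN0 : (0 : ℝ) < N := by exact_mod_cast NeZero.pos N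
  have hpi := Real.pi_pos
  -- representatives
  obtain ⟨l', hl'⟩ : ∃ l' : ℤ, (l' : ZMod N) = k' := ⟨(k'.val : ℤ), by simp⟩
  set l : ℤ := (k - k').valMinAbs with hl
  have hlk : ((l' + l : ℤ) : ZMod N) = k := by
    push_cast
    rw [hl', hl, ZMod.coe_valMinAbs]
    ring
  have hl0 : l ≠ 0 := by
    intro h0
    apply hk
    rw [← hlk, h0, add_zero, hl']
  have hlN : 2 * |l| < N := by
    have h1 := ZMod.valMinAbs_mem_Ioc (k - k')
    rw [← hl] at h1
    obtain ⟨h2, h3⟩ := h1
    obtain ⟨t, ht⟩ := hN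
    rcases abs_cases l with ⟨h4, _⟩ | ⟨h4, _⟩ <;> rw [h4] <;> omega
  -- the sign of l
  obtain ⟨s0, hs0, hs0l⟩ : ∃ s0 : ℝ, (s0 = 1 ∨ s0 = -1) ∧ (l : ℝ) = s0 * |(l : ℝ)| := by
    rcases lt_or_gt_of_ne hl0 with h1 | h1
    · refine ⟨-1, Or.inr rfl, ?_⟩
      rw [abs_of_neg (by exact_mod_cast h1)]; ring
    · refine ⟨1, Or.inl rfl, ?_⟩
      rw [abs_of_pos (by exact_mod_cast h1)]; ring
  have hs00 : s0 * s0 = 1 := by rcases hs0 with h | h <;> rw [h] <;> norm_num
  have habs : 0 < |l| := abs_pos.2 hl0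
  -- sin of the shifted angle
  have hsin : ∀ s : ℝ, (s = 1 ∨ s = -1) → 0 < s0 * Real.sin (2 * Real.pi * l / N + s * (Real.pi / (2 * N))) := by
    intro s hs
    have h1 := sin_shift_pos (N := N) |l| habs hlN (s0 * s) (by
      rcases hs0 with h | h <;> rcases hs with h' | h' <;> rw [h, h'] <;> norm_num)
    rw [Int.cast_abs] at h1
    have e : 2 * Real.pi * |(l : ℝ)| / N + s0 * s * (Real.pi / (2 * N)) =
        s0 * (2 * Real.pi * l / N + s * (Real.pi / (2 * N))) := by
      rw [hs0l]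
      rcases hs0 with h | h
      · rw [h]; simp
      · rw [h]; simp; ring
    rw [e] at h1
    rcases hs0 with h | h
    · rw [h, one_mul] at h1 ⊢; exact h1
    · rw [h, neg_one_mul, Real.sin_neg] at h1
      rw [h, neg_one_mul]; exact h1
  have hsin0 : 0 < s0 * Real.sin (2 * Real.pi * l / N) := by
    have h1 : (0 : ℝ) < 2 * Real.pi * |(l : ℝ)| / N := by
      have : (0 : ℝ) < |(l : ℝ)| := by exact_mod_cast habs
      positivity
    have h2 : 2 * Real.pi * |(l : ℝ)| / N < Real.pi := by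
      rw [div_lt_iff₀ hN0]
      have : 2 * |(l : ℝ)| < N := by exact_mod_cast hlN
      nlinarith
    have h3 := Real.sin_pos_of_pos_of_lt_pi h1 h2
    have e : 2 * Real.pi * |(l : ℝ)| / N = s0 * (2 * Real.pi * l / N) := by
      rw [hs0l]
      rcases hs0 with h | h
      · rw [h]; simp
      · rw [h]; simp; ring
    rw [e] at h3
    rcases hs0 with h | h
    · rw [h, one_mul] at h3 ⊢; exact h3
    · rw [h, neg_one_mul, Real.sin_neg] at h3
      rw [h, neg_one_mul]; exact h3
  -- choice of signs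
  obtain ⟨τ, hτ, hτa⟩ : ∃ τ : ℝ, (τ = 1 ∨ τ = -1) ∧ 0 < τ * a := by
    rcases lt_or_gt_of_ne ha with h1 | h1
    · exact ⟨-1, Or.inr rfl, by linarith⟩
    · exact ⟨1, Or.inl rfl, by linarith⟩
  obtain ⟨ω, hω, hωb⟩ : ∃ ω : ℝ, (ω = 1 ∨ ω = -1) ∧ 0 < ω * b := by
    rcases lt_or_gt_of_ne hb with h1 | h1
    · exact ⟨-1, Or.inr rfl, by linarith⟩
    · exact ⟨1, Or.inl rfl, by linarith⟩
  obtain ⟨sz, hsz, hszr⟩ : ∃ sz : ℤ, (sz = 1 ∨ sz = -1) ∧ (sz : ℝ) = ω * s0 * τ := by
    have h1 : ω * s0 * τ = 1 ∨ ω * s0 * τ = -1 := by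
      rcases hτ with h | h <;> rcases hω with h' | h' <;> rcases hs0 with h'' | h'' <;> rw [h, h', h''] <;> norm_num
    rcases h1 with h1 | h1
    · exact ⟨1, Or.inl rfl, by rw [h1]; norm_num⟩
    · exact ⟨-1, Or.inr rfl, by rw [h1]; norm_num⟩
  have hsr : ((sz : ℝ) = 1 ∨ (sz : ℝ) = -1) := by
    rcases hsz with h | h <;> rw [h] <;> norm_num
  obtain ⟨m, hm⟩ := tv_mid (N := N) hN (4 * (l' + l) + sz) (by
    rcases hsz with h | h
    · rw [h]; exact ⟨2 * (l' + l), by ring⟩
    · rw [h]; exact ⟨2 * (l' + l) - 1, by ring⟩)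
  -- the direction
  set d : ℂ := tv (Real.pi * ((4 * (l' + l) + sz : ℤ) : ℝ) / (2 * N)) with hd
  have c1 : cr (E k') (E k) = Real.sin (2 * Real.pi * l / N) := by
    rw [← hlk, ← hl', E_int, E_int, Pool.Agent.Lib.H23D.cr_tv]
    congr 1
    push_cast
    ring
  have c2 : cr (E k') d = Real.sin (2 * Real.pi * l / N + sz * (Real.pi / (2 * N))) := by
    rw [hd, ← hl', E_int, Pool.Agent.Lib.H23D.cr_tv]
    congr 1
    push_cast
    field_simp
    ring
  have c3 : cr (E k) d = sz * Real.sin (Real.pi / (2 * N)) := by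
    rw [hd, ← hlk, E_int, Pool.Agent.Lib.H23D.cr_tv]
    have e : Real.pi * ((4 * (l' + l) + sz : ℤ) : ℝ) / (2 * N) - 2 * Real.pi * ((l' + l : ℤ) : ℝ) / N =
        sz * (Real.pi / (2 * N)) := by
      push_cast
      field_simp
      ring
    rw [e]
    rcases hsr with h | h
    · rw [h]; simp
    · rw [h]; simp
  have hsmall : 0 < Real.sin (Real.pi / (2 * N)) := by
    apply Real.sin_pos_of_pos_of_lt_pi (by positivity)
    rw [div_lt_iff₀ (by positivity)]
    have : (1 : ℝ) ≤ N := by exact_mod_cast NeZero.pos N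
    nlinarith
  have k1 := hsin sz hsr
  rw [← c2] at k1
  rw [← c1] at hsin0
  have q1 : det ((b : ℂ) * E k') ((a : ℂ) * E k) = b * a * cr (E k') (E k) := by
    simp only [det, cr, Complex.re_ofReal_mul, Complex.im_ofReal_mul]; ring
  have q2 : det ((b : ℂ) * E k') ((τ : ℂ) * d) = b * τ * cr (E k') d := by
    simp only [det, cr, Complex.re_ofReal_mul, Complex.im_ofReal_mul]; ring
  have q3 : det ((a : ℂ) * E k) ((τ : ℂ) * d) = a * τ * cr (E k) d := by
    simp only [det, cr, Complex.re_ofReal_mul, Complex.im_ofReal_mul]; ring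
  have g1 : 0 < det ((b : ℂ) * E k') ((a : ℂ) * E k) * det ((b : ℂ) * E k') ((τ : ℂ) * d) := by
    rw [q1, q2]
    have e : b * a * cr (E k') (E k) * (b * τ * cr (E k') d) =
        (b * b) * (τ * a) * ((s0 * cr (E k') (E k)) * (s0 * cr (E k') d)) := by
      linear_combination (- (b * b) * (τ * a) * cr (E k') (E k) * cr (E k') d) * hs00
    rw [e]
    have hbb : 0 < b * b := mul_self_pos.2 hb
    positivity
  have g2 : 0 < det ((b : ℂ) * E k') ((a : ℂ) * E k) * det ((a : ℂ) * E k) ((τ : ℂ) * d) := by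
    rw [q1, q3, c3, hszr]
    have ht : τ * τ = 1 := by rcases hτ with h | h <;> rw [h] <;> norm_num
    have e : b * a * cr (E k') (E k) * (a * τ * (ω * s0 * τ * Real.sin (Real.pi / (2 * N)))) =
        (a * a) * (ω * b) * ((s0 * cr (E k') (E k)) * Real.sin (Real.pi / (2 * N))) * (τ * τ) := by
      ring
    rw [e, ht, mul_one]
    have haa : 0 < a * a := mul_self_pos.2 ha
    positivity
  rcases hm with h | h
  · refine ⟨m, τ, hτ, ?_, ?_⟩
    · rw [← h]; exact g1
    · rw [← h]; exact g2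
  · refine ⟨m, -τ, ?_, ?_, ?_⟩
    · rcases hτ with h' | h' <;> rw [h'] <;> norm_num
    · have e : (((-τ : ℝ) : ℂ)) * (Complex.I * E m) = (τ : ℂ) * d := by rw [h]; push_cast; ring
      rw [e]; exact g1
    · have e : (((-τ : ℝ) : ℂ)) * (Complex.I * E m) = (τ : ℂ) * d := by rw [h]; push_cast; ring
      rw [e]; exact g2

end

/-- An open cone of good directions at the vertex `i`, containing the direction `d`. -/
structure CornerCone {n : ℕ} (P : Set ℂ) (v : ZMod n → ℂ) (i : ZMod n) (d : ℂ) (r : ℝ) (K : Set ℂ) : Prop where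
  pos : 0 < r
  isOpen : IsOpen K
  convex : Convex ℝ K
  smul : ∀ x ∈ K, ∀ t : ℝ, 0 < t → (t : ℂ) * x ∈ K
  mem : d ∈ K
  inside : ∀ x ∈ K, ‖x‖ < r → v i + x ∈ interior P
  good : ∀ x ∈ K, GoodArr v (v i) (-x)

/-- the corner theorem for the dense class -/
theorem gon_corner {n : ℕ} [NeZero n] {N : ℕ} [NeZero N] {P : Set ℂ} {v : ZMod n → ℂ} {kap : ZMod n → ZMod N}
    (h : IsPolygon P v) (hg : Gon v kap) (i : ZMod n) :
    ∃ (m : ZMod N) (τ : ℝ) (r : ℝ) (K : Set ℂ), (τ = 1 ∨ τ = -1) ∧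
      CornerCone P v i ((τ : ℂ) * (Complex.I * E m)) r K := by
  have hodd : Odd N := hg.prime.odd_of_ne_two hg.odd
  obtain ⟨a, ha, hae⟩ := hg.par i
  obtain ⟨b, hb, hbe⟩ := hg.par (i - 1)
  rw [sub_add_cancel] at hbe
  have hk : kap i ≠ kap (i - 1) := by
    have := hg.turn (i - 1)
    rwa [sub_add_cancel] at this
  obtain ⟨m, τ, hτ, h1, h2⟩ := exists_mid hodd (kap i) (kap (i - 1)) hk a b ha hb
  rw [← hae, ← hbe] at h1 h2
  set f := v i - v (i - 1) with hf
  set e := v (i + 1) - v i with he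
  have hD : det f e ≠ 0 := by
    intro h0
    rw [h0, zero_mul] at h1
    exact lt_irrefl _ h1
  obtain ⟨σ, hσ, r, hr, hin⟩ := corner_sector h i hD
  rw [← hf, ← he] at hin
  have hσσ : σ * σ = 1 := by rcases hσ with h' | h' <;> rw [h'] <;> norm_num
  have hστ : σ * τ = 1 ∨ σ * τ = -1 := by
    rcases hσ with h' | h' <;> rcases hτ with h'' | h'' <;> rw [h', h''] <;> norm_num
  have hlin : ∀ w : ℂ, IsLinearMap ℝ (fun y : ℂ => σ * det f e * det w y) := by
    intro w
    constructor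
    · intro x y
      simp only [det, Complex.add_re, Complex.add_im]; ring
    · intro c x
      simp only [det, Complex.real_smul, Complex.mul_re, Complex.mul_im, Complex.ofReal_re,
        Complex.ofReal_im, smul_eq_mul]; ring
  have hcont : ∀ w : ℂ, Continuous (fun y : ℂ => σ * det f e * det w y) := by
    intro w
    unfold det
    fun_prop
  refine ⟨m, σ * τ, r, {x | 0 < σ * det f e * det f x} ∩ {x | 0 < σ * det f e * det e x}, hστ, hr, ?_, ?_, ?_, ?_, ?_, ?_⟩
  · exact (isOpen_lt continuous_const (hcont f)).inter (isOpen_lt continuous_const (hcont e))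
  · exact (convex_halfSpace_gt (hlin f) 0).inter (convex_halfSpace_gt (hlin e) 0)
  · rintro x ⟨hx1, hx2⟩ t ht
    have hx1' : 0 < σ * det f e * det f x := hx1
    have hx2' : 0 < σ * det f e * det e x := hx2
    constructor
    · show 0 < σ * det f e * det f ((t : ℂ) * x)
      rw [det_smul']
      have : σ * det f e * (t * det f x) = t * (σ * det f e * det f x) := by ring
      rw [this]; positivity
    · show 0 < σ * det f e * det e ((t : ℂ) * x)
      rw [det_smul']
      have : σ * det f e * (t * det e x) = t * (σ * det f e * det e x) := by ring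
      rw [this]; positivity
  · have e1 : ((σ * τ : ℝ) : ℂ) * (Complex.I * E m) = ((σ : ℝ) : ℂ) * ((τ : ℂ) * (Complex.I * E m)) := by
      push_cast; ring
    constructor
    · show 0 < σ * det f e * det f (((σ * τ : ℝ) : ℂ) * (Complex.I * E m))
      rw [e1, det_smul']
      have : σ * det f e * (σ * det f ((τ : ℂ) * (Complex.I * E m))) =
          (σ * σ) * (det f e * det f ((τ : ℂ) * (Complex.I * E m))) := by ring
      rw [this, hσσ, one_mul]; exact h1
    · show 0 < σ * det f e * det e (((σ * τ : ℝ) : ℂ) * (Complex.I * E m))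
      rw [e1, det_smul']
      have : σ * det f e * (σ * det e ((τ : ℂ) * (Complex.I * E m))) =
          (σ * σ) * (det f e * det e ((τ : ℂ) * (Complex.I * E m))) := by ring
      rw [this, hσσ, one_mul]; exact h2
  · rintro x ⟨hx1, hx2⟩ hx
    exact hin x hx hx1 hx2
  · rintro x ⟨hx1, hx2⟩
    have hx1' : 0 < σ * det f e * det f x := hx1
    have hx2' : 0 < σ * det f e * det e x := hx2
    refine Or.inr (Or.inr ⟨i, rfl, ?_⟩)
    rw [← hf, ← he]
    have e1 : det f (-x) * det e (-x) = det f x * det e x := by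
      simp only [det, Complex.neg_re, Complex.neg_im]; ring
    rw [e1]
    have h3 := mul_pos hx1' hx2'
    have e2 : σ * det f e * det f x * (σ * det f e * det e x) = (σ * det f e) ^ 2 * (det f x * det e x) := by ring
    rw [e2] at h3
    exact pos_of_mul_pos_right h3 (sq_nonneg _)

end Pool.Agent.Lib.H42D
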