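import Pool.Agent.Lib.H42I.Light

/-!
# H42D: a path which is locally straight or reflected once is a light ray
-/

open Set

namespace Pool.Agent.Lib.H42D

open Pool.Agent.Lib.H42I

variable {n : ℕ} {P : Set ℂ} {v : ZMod n → ℂ}

/-- Near the time `t` the path `φ` is straight in the interior of `P`, or it is reflected at a
side. -/
def RayLoc (P : Set ℂ) (v : ZMod n → ℂ) (φ : ℝ → ℂ) (t : ℝ) : Prop :=
  ∃ ε > 0, ∃ d : ℂ, (∀ s, t - ε < s → s ≤ t → φ s = φ t + ((s - t : ℝ) : ℂ) * d) ∧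
    (∀ s, t - ε < s → s < t + ε → s ≠ t → φ s ∈ interior P) ∧
    ((φ t ∈ interior P ∧ ∀ s, t ≤ s → s < t + ε → φ s = φ t + ((s - t : ℝ) : ℂ) * d) ∨
     (∃ i, φ t ∈ openSegment ℝ (v i) (v (i + 1)) ∧
        ∀ s, t ≤ s → s < t + ε → φ s = φ t + ((s - t : ℝ) : ℂ) * H42I.refl (v (i + 1) - v i) d))

private theorem rp_refl_mul (u d : ℂ) (c : ℝ) : H42I.refl u (c * d) = c * H42I.refl u d := by
  unfold H42I.refl
  rw [map_mul, Complex.conj_ofReal]
  ring

private theorem rp_refl_ne {u d : ℂ} (hu : u ≠ 0) (hd : d ≠ 0) : H42I.refl u d ≠ 0 := by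
  unfold H42I.refl
  have h1 : (starRingEnd ℂ) u ≠ 0 := by simpa using hu
  have h2 : (starRingEnd ℂ) d ≠ 0 := by simpa using hd
  exact mul_ne_zero (div_ne_zero hu h1) h2

/-- `d` is the direction in which the path arrives at the time `t` -/
private def Inc (φ : ℝ → ℂ) (t : ℝ) (d : ℂ) : Prop :=
  ∃ ε > 0, ∀ s, t - ε < s → s ≤ t → φ s = φ t + ((s - t : ℝ) : ℂ) * d

private theorem inc_unique {φ : ℝ → ℂ} {t : ℝ} {d d' : ℂ} (h : Inc φ t d) (h' : Inc φ t d') :
    d = d' := by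
  obtain ⟨ε, hε, h⟩ := h
  obtain ⟨ε', hε', h'⟩ := h'
  set s := t - min ε ε' / 2 with hs
  have hm : 0 < min ε ε' := lt_min hε hε'
  have h1 := h s (by have := min_le_left ε ε'; linarith) (by linarith)
  have h2 := h' s (by have := min_le_right ε ε'; linarith) (by linarith)
  have h3 : ((s - t : ℝ) : ℂ) * d = ((s - t : ℝ) : ℂ) * d' := by
    have := h1.symm.trans h2
    exact add_left_cancel this
  refine mul_left_cancel₀ ?_ h3
  have : s - t ≠ 0 := by linarith
  exact_mod_cast this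

/-- the light has reached the time `t` -/
private def Gd (P : Set ℂ) (v : ZMod n → ℂ) (φ : ℝ → ℂ) (a t : ℝ) : Prop :=
  ∃ d : ℂ, d ≠ 0 ∧ RayS P v (φ a) (φ t) d ∧ Inc φ t d

private theorem seg_sub {φ : ℝ → ℂ} {t s : ℝ} {d : ℂ} (hts : t < s)
    (h : ∀ x, t ≤ x → x ≤ s → φ x = φ t + ((x - t : ℝ) : ℂ) * d)
    (hi : ∀ x, t < x → x < s → φ x ∈ interior P) :
    openSegment ℝ (φ t) (φ s) ⊆ interior P := by
  rintro w ⟨α, β, hα, hβ, hab, rfl⟩
  have hx : t < t + β * (s - t) := by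
    have := mul_pos hβ (sub_pos.2 hts)
    linarith
  have hx' : t + β * (s - t) < s := by
    have hβ1 : β < 1 := by linarith
    nlinarith
  have h1 := hi _ hx hx'
  rw [h _ hx.le hx'.le] at h1
  have h2 := h s hts.le le_rfl
  have e : α • φ t + β • φ s = φ t + ((t + β * (s - t) - t : ℝ) : ℂ) * d := by
    have hα' : α = 1 - β := by linarith
    rw [h2, hα']
    simp only [Complex.real_smul]
    push_cast
    ring
  rw [e]
  exact h1

private theorem step_straight {φ : ℝ → ℂ} {a t s : ℝ} {d : ℂ} (hd : d ≠ 0) (hts : t < s)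
    (hR : RayS P v (φ a) (φ t) d) (ht : φ t ∈ interior P)
    (h : ∀ x, t ≤ x → x ≤ s → φ x = φ t + ((x - t : ℝ) : ℂ) * d)
    (hi : ∀ x, t < x → x < s → φ x ∈ interior P) : RayS P v (φ a) (φ s) d := by
  have h1 := h s hts.le le_rfl
  have h2 := seg_sub (P := P) hts h hi
  rw [h1] at h2 ⊢
  exact ray_extend _ _ _ _ hd (sub_pos.2 hts) hR ht h2

private theorem step_bounce {φ : ℝ → ℂ} {a t s : ℝ} {d : ℂ} (hts : t < s)
    (hR : RayS P v (φ a) (φ t) d) {i : ZMod n}
    (ht : φ t ∈ openSegment ℝ (v i) (v (i + 1)))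
    (h : ∀ x, t ≤ x → x ≤ s → φ x = φ t + ((x - t : ℝ) : ℂ) * H42I.refl (v (i + 1) - v i) d)
    (hi : ∀ x, t < x → x < s → φ x ∈ interior P) :
    RayS P v (φ a) (φ s) (H42I.refl (v (i + 1) - v i) d) := by
  obtain ⟨c, hc, hR⟩ := hR
  refine ⟨c, hc, ?_⟩
  have h1 := h s hts.le le_rfl
  have h2 := seg_sub (P := P) hts h hi
  rw [← rp_refl_mul]
  refine Ray.bounce (φ t) (c * d) (φ s) i ((s - t) / c) hR ht (div_pos (sub_pos.2 hts) hc) ?_ h2
  rw [h1, rp_refl_mul]
  have hc' : (c : ℂ) ≠ 0 := by exact_mod_cast hc.ne'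
  push_cast
  field_simp

/-- A path which is straight in the interior of `P` near its ends and locally straight or reflected
once in between is a light ray. -/
theorem raypath {φ : ℝ → ℂ} {a b : ℝ} (hab : a < b) {δ : ℝ} (hδ : 0 < δ) (d₀ d₁ : ℂ)
    (h0 : d₀ ≠ 0) (hv : ∀ i, v i ≠ v (i + 1))
    (hs : ∀ s, a ≤ s → s < a + δ → φ s = φ a + ((s - a : ℝ) : ℂ) * d₀)
    (hsi : ∀ s, a < s → s < a + δ → φ s ∈ interior P)
    (he : ∀ s, b - δ < s → s ≤ b → φ s = φ b + ((s - b : ℝ) : ℂ) * d₁)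
    (hei : ∀ s, b - δ < s → s < b → φ s ∈ interior P)
    (hl : ∀ t, a < t → t < b → RayLoc P v φ t) : RayS P v (φ a) (φ b) d₁ ∧ d₁ ≠ 0 := by
  -- start
  have hstart : ∀ s, a < s → s < a + δ → s < b → Gd P v φ a s := by
    intro s h1 h2 h3
    refine ⟨d₀, h0, ⟨s - a, sub_pos.2 h1, ?_⟩, s - a, sub_pos.2 h1, ?_⟩
    · have e1 := hs s h1.le h2
      have e2 : ((s - a : ℝ) : ℂ) * d₀ = φ s - φ a := by rw [e1]; ring
      rw [e2]
      refine Ray.start (φ s) ?_ (seg_sub h1 (fun x hx hx' => hs x hx (by linarith))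
        (fun x hx hx' => hsi x hx (by linarith)))
      intro e3
      have e4 : ((s - a : ℝ) : ℂ) * d₀ = 0 := by rw [e2, e3, sub_self]
      rcases mul_eq_zero.1 e4 with h5 | h5
      · have : s - a = 0 := by exact_mod_cast h5
        linarith
      · exact h0 h5
    · intro x hx hx'
      have e1 := hs s h1.le h2
      have e2 := hs x (by linarith) (by linarith)
      rw [e2, e1]
      push_cast
      ring
  -- one step forward
  have hfwd : ∀ t, a < t → t < b → Gd P v φ a t → ∃ ε > 0, ∀ s, t < s → s < t + ε →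
      Gd P v φ a s := by
    intro t h1 h2 hG
    obtain ⟨d, hd, hR, hI⟩ := hG
    obtain ⟨ε, hε, d', hl1, hl2, hl3⟩ := hl t h1 h2
    have hdd : d = d' := inc_unique hI ⟨ε, hε, hl1⟩
    subst hdd
    refine ⟨ε, hε, fun s h3 h4 => ?_⟩
    rcases hl3 with ⟨h5, h6⟩ | ⟨i, h5, h6⟩
    · refine ⟨d, hd, step_straight hd h3 hR h5 (fun x hx hx' => h6 x hx (by linarith))
        (fun x hx hx' => hl2 x (by linarith) (by linarith) hx.ne'), s - t, sub_pos.2 h3, ?_⟩
      intro x hx hx'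
      rw [h6 x (by linarith) (by linarith), h6 s h3.le h4]
      push_cast
      ring
    · refine ⟨H42I.refl (v (i + 1) - v i) d, rp_refl_ne (sub_ne_zero.2 (hv i).symm) hd,
        step_bounce h3 hR h5 (fun x hx hx' => h6 x hx (by linarith))
        (fun x hx hx' => hl2 x (by linarith) (by linarith) hx.ne'), s - t, sub_pos.2 h3, ?_⟩
      intro x hx hx'
      rw [h6 x (by linarith) (by linarith), h6 s h3.le h4]
      push_cast
      ring
  -- from the left to the point `t` (`t ≤ b`)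
  have hleft : ∀ t, a < t → (∃ ε > 0, ∃ d : ℂ,
      (∀ s, t - ε < s → s ≤ t → φ s = φ t + ((s - t : ℝ) : ℂ) * d) ∧
      (∀ s, t - ε < s → s < t → φ s ∈ interior P) ∧ ∃ s, t - ε < s ∧ s < t ∧ Gd P v φ a s) →
      ∃ d : ℂ, d ≠ 0 ∧ RayS P v (φ a) (φ t) d ∧ Inc φ t d := by
    rintro t h1 ⟨ε, hε, d, h2, h3, s, h4, h5, d', hd', hR, hI⟩
    have hI' : Inc φ s d := by
      refine ⟨s - (t - ε), by linarith, fun x hx hx' => ?_⟩
      rw [h2 x (by linarith) (by linarith), h2 s h4 h5.le]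
      push_cast
      ring
    have hdd : d' = d := inc_unique hI hI'
    subst hdd
    refine ⟨d', hd', step_straight hd' h5 hR (h3 s h4 h5) ?_
      (fun x hx hx' => h3 x (by linarith) hx'), ε, hε, h2⟩
    intro x hx hx'
    rw [h2 x (by linarith) hx', h2 s h4 h5.le]
    push_cast
    ring
  -- real induction
  obtain ⟨s₀, hs₀a, hs₀δ, hs₀b⟩ : ∃ s₀, a < s₀ ∧ s₀ < a + δ ∧ s₀ < b := by
    refine ⟨a + min δ (b - a) / 2, ?_, ?_, ?_⟩
    · have : 0 < min δ (b - a) := lt_min hδ (sub_pos.2 hab)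
      linarith
    · have h1 : min δ (b - a) ≤ δ := min_le_left _ _
      have : 0 < min δ (b - a) := lt_min hδ (sub_pos.2 hab)
      linarith
    · have h1 : min δ (b - a) ≤ b - a := min_le_right _ _
      have : 0 < min δ (b - a) := lt_min hδ (sub_pos.2 hab)
      linarith
  have hall : ∀ b', s₀ ≤ b' → b' < b → Gd P v φ a b' := by
    intro b' h1 h2
    set A := {t : ℝ | s₀ ≤ t ∧ t ≤ b' ∧ ∀ s, s₀ ≤ s → s ≤ t → Gd P v φ a s} with hA
    have hA0 : s₀ ∈ A := by
      refine ⟨le_rfl, h1, fun s h3 h4 => ?_⟩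
      have : s = s₀ := le_antisymm h4 h3
      rw [this]
      exact hstart s₀ hs₀a hs₀δ hs₀b
    have hbd : BddAbove A := ⟨b', fun t ht => ht.2.1⟩
    have hne : A.Nonempty := ⟨s₀, hA0⟩
    set T := sSup A with hT
    have hT0 : s₀ ≤ T := le_csSup hbd hA0
    have hTb : T ≤ b' := csSup_le hne (fun t ht => ht.2.1)
    have hlt : ∀ s, s₀ ≤ s → s < T → Gd P v φ a s := by
      intro s h3 h4
      obtain ⟨t, ht, hst⟩ := exists_lt_of_lt_csSup hne h4
      exact ht.2.2 s h3 hst.le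
    have hGT : Gd P v φ a T := by
      rcases eq_or_lt_of_le hT0 with h3 | h3
      · rw [← h3]
        exact hstart s₀ hs₀a hs₀δ hs₀b
      · obtain ⟨ε, hε, d, hl1, hl2, hl3⟩ := hl T (by linarith) (by linarith)
        refine hleft T (by linarith) ⟨ε, hε, d, hl1,
          fun s h4 h5 => hl2 s h4 (by linarith) h5.ne, max s₀ (T - ε / 2), ?_, ?_, ?_⟩
        · exact lt_of_lt_of_le (by linarith) (le_max_right _ _)
        · exact max_lt h3 (by linarith)
        · exact hlt _ (le_max_left _ _) (max_lt h3 (by linarith))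
    rcases eq_or_lt_of_le hTb with h3 | h3
    · rw [← h3]
      exact hGT
    · exfalso
      obtain ⟨ε, hε, hf⟩ := hfwd T (by linarith) (by linarith) hGT
      have hmem : min b' (T + ε / 2) ∈ A := by
        refine ⟨le_min h1 (by linarith), min_le_left _ _, fun s h4 h5 => ?_⟩
        rcases lt_trichotomy s T with h6 | h6 | h6
        · exact hlt s h4 h6
        · rw [h6]
          exact hGT
        · exact hf s h6 (lt_of_le_of_lt (h5.trans (min_le_right _ _)) (by linarith))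
      have h4 := le_csSup hbd hmem
      have h5 : T < min b' (T + ε / 2) := lt_min h3 (by linarith)
      linarith
  -- the end
  obtain ⟨s, hs1, hs2, hs3⟩ : ∃ s, s₀ ≤ s ∧ b - δ < s ∧ s < b := by
    refine ⟨max s₀ (b - δ / 2), le_max_left _ _, lt_of_lt_of_le (by linarith) (le_max_right _ _),
      max_lt hs₀b (by linarith)⟩
  obtain ⟨d, hd, hR, hI⟩ := hleft b hab ⟨δ, hδ, d₁, he, hei, s, hs2, hs3, hall s hs1 hs3⟩
  have hdd : d = d₁ := inc_unique hI ⟨δ, hδ, he⟩
  rw [← hdd]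
  exact ⟨hR, hd⟩

end Pool.Agent.Lib.H42D
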