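import Mathlib
import Pool.Agent.Lib.H42D.RayPath
import Pool.Agent.Lib.H45Z.TSurf
import Pool.Agent.Lib.H25D.Basic

/-!
# MP_273810_co, H25D: a segment of the surface of states is a light ray (library H42D, helper42)
-/

open Set Metric Filter Topology

namespace Pool.Agent.Lib.H42D

open Pool.Agent.Lib.H42I (IsPolygon Ray RayS)
open Pool.Agent.Lib.H45Z
open Pool.Agent.H52W (cdet)
open Pool.Agent.Lib.H23D (E)
open Pool.Agent.Lib.H25D

section
variable {n N : ℕ} [NeZero N] {P : Set ℂ} {v : ZMod n → ℂ} {kap : ZMod n → ZMod N}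

theorem refl_eq_E (hP : IsPolygon P v) (hk : Par v kap) (i : ZMod n) (D : ℂ) :
    H42I.refl (v (i + 1) - v i) D = E (2 * kap i) * (starRingEnd ℂ) D := by
  obtain ⟨r, hr⟩ := hk i
  have hne := Pool.Agent.H52W.side_ne_of_polygon hP i
  have hr0 : r ≠ 0 := by
    rintro rfl
    apply hne
    have : v (i + 1) - v i = 0 := by rw [hr]; simp
    exact (sub_eq_zero.1 this).symm
  unfold H42I.refl
  rw [hr, map_mul, Complex.conj_ofReal, Pool.Agent.Lib.H23D.E_conj]
  congr 1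
  have h1 : E (kap i) = E (2 * kap i) * E (-kap i) := by
    rw [← Pool.Agent.Lib.H23D.E_add]; congr 1; ring
  have h2 : (r : ℂ) ≠ 0 := by exact_mod_cast hr0
  have h3 := Pool.Agent.Lib.H23D.E_ne_zero (-kap i)
  rw [div_eq_iff (mul_ne_zero h2 h3)]
  rw [h1]; ring

theorem E_two_conj_conj (a : ZMod N) (D : ℂ) :
    E (2 * a) * (starRingEnd ℂ) (E (2 * a) * (starRingEnd ℂ) D) = D := by
  rw [map_mul, Complex.conj_conj, Pool.Agent.Lib.H23D.E_conj, ← mul_assoc, ← Pool.Agent.Lib.H23D.E_add,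
    add_neg_cancel, Pool.Agent.Lib.H23D.E_zero, one_mul]

theorem cdet_E_conj (hk : Par v kap) (i : ZMod n) (D : ℂ) :
    cdet (v (i + 1) - v i) (E (2 * kap i) * (starRingEnd ℂ) D) = - cdet (v (i + 1) - v i) D := by
  have h := cdet_mir hk i (v i + D)
  unfold mir at h
  have e1 : v i + E (2 * kap i) * (starRingEnd ℂ) (v i + D - v i) - v i =
      E (2 * kap i) * (starRingEnd ℂ) D := by
    have : v i + D - v i = D := by ring
    rw [this]; ring
  have e2 : v i + D - v i = D := by ring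
  rw [e1, e2] at h
  exact h

/-- a state on a side lies in an open side -/
theorem mem_open_of_not_int (hP : IsPolygon P v) (x : SPt P v N) (hx : x.p ∉ interior P) :
    x.p ∈ openSegment ℝ (v (ns v x.p)) (v (ns v x.p + 1)) := by
  have h1 : x.p ∈ frontier P := by
    rw [hP.compact.isClosed.frontier_eq]
    exact ⟨x.mem, hx⟩
  rw [hP.frontier_eq, mem_iUnion] at h1
  obtain ⟨i, hi⟩ := h1
  have h2 : x.p ∈ openSegment ℝ (v i) (v (i + 1)) :=
    mem_openSegment_of_ne_left_right (x.nv i).symm (x.nv (i + 1)).symm hi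
  obtain ⟨h3, _, _⟩ := ns_open hP h2
  rw [h3]
  exact h2

private theorem norm_tau (W : ℂ) (τ r : ℝ) (hr : 0 < r) (h : |τ| < r / (‖W‖ + 1)) : ‖((τ : ℝ) : ℂ) * W‖ < r := by
  rw [norm_mul, Complex.norm_real, Real.norm_eq_abs]
  have h0 : 0 ≤ ‖W‖ := norm_nonneg W
  rw [lt_div_iff₀ (by positivity)] at h
  nlinarith [abs_nonneg τ]

/-- interior points -/
theorem loc_int (hP : IsPolygon P v) (hk : Par v kap) (x : SPt P v N) (W : ℂ) (hx : x.p ∈ interior P) :
    ∃ ε > 0, ∀ τ : ℝ, |τ| < ε → (sadd hP hk x ((τ : ℂ) * W)).p = x.p + (τ : ℂ) * fr x.g W ∧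
      (sadd hP hk x ((τ : ℂ) * W)).p ∈ interior P ∧ (sadd hP hk x ((τ : ℂ) * W)).g = x.g := by
  obtain ⟨r, hr, hball⟩ := Metric.isOpen_iff.1 isOpen_interior x.p hx
  have hpos := rho2_pos hP x.p x.nv
  refine ⟨min r (rho2 v x.p) / (‖W‖ + 1), div_pos (lt_min hr hpos) (by positivity), ?_⟩
  intro τ hτ
  have h1 := norm_tau W τ (min r (rho2 v x.p)) (lt_min hr hpos) hτ
  have h2 : x.p + fr x.g ((τ : ℂ) * W) ∈ interior P := by
    apply hball
    rw [mem_ball, dist_eq_norm, add_sub_cancel_left, norm_fr]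
    exact h1.trans_le (min_le_left _ _)
  obtain ⟨h3, h4⟩ := sadd_int hP hk x _ (h1.trans_le (min_le_right _ _)) h2
  rw [h3, h4]
  exact ⟨by rw [fr_real], h2, rfl⟩

/-- points of a side, direction parallel to the side -/
theorem loc_par (hP : IsPolygon P v) (hk : Par v kap) (x : SPt P v N) (W : ℂ) (hx : x.p ∉ interior P)
    (hD : cdet (v (ns v x.p + 1) - v (ns v x.p)) (fr x.g W) = 0) :
    ∃ ε > 0, ∀ τ : ℝ, |τ| < ε → (sadd hP hk x ((τ : ℂ) * W)).p ∉ interior P ∧
      cdet (v (ns v (sadd hP hk x ((τ : ℂ) * W)).p + 1) - v (ns v (sadd hP hk x ((τ : ℂ) * W)).p))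
        (fr (sadd hP hk x ((τ : ℂ) * W)).g W) = 0 := by
  have hpos := rho2_pos hP x.p x.nv
  have hop := mem_open_of_not_int hP x hx
  obtain ⟨_, _, σ, hcut⟩ := ns_open hP hop
  have hbit := x.bit hx
  set i := ns v x.p with hi
  refine ⟨rho2 v x.p / (‖W‖ + 1), by positivity, ?_⟩
  intro τ hτ
  have hu := norm_tau W τ (rho2 v x.p) hpos hτ
  have h1 : cdet (v (i + 1) - v i) (x.p + fr x.g ((τ : ℂ) * W) - v i) = 0 := by
    have h2 := Pool.Agent.H52W.cdet_side_zero v i x.p (openSegment_subset_segment _ _ _ hop)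
    have e : x.p + fr x.g ((τ : ℂ) * W) - v i = (x.p - v i) + (τ : ℂ) * fr x.g W := by rw [fr_real]; ring
    rw [e, cdet_add, cdet_real, h2, hD]; ring
  have hb : x.p + fr x.g ((τ : ℂ) * W) ∈ ball x.p (rho2 v x.p) := ball_fr hu
  obtain ⟨h3, h4, h5⟩ := hcut.side hP hb h1
  obtain ⟨h6, h7⟩ := sadd_side hP hk x _ hu h4 h5
  rw [hbit] at h7
  simp only [Bool.false_eq_true, if_false] at h7
  refine ⟨by rw [h6]; exact h5, ?_⟩
  rw [h6, h7]
  obtain ⟨h8, _, _⟩ := ns_open hP h3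
  rw [h8]
  exact hD

/-- points of a side, direction transversal to the side -/
theorem loc_side (hP : IsPolygon P v) (hk : Par v kap) (x : SPt P v N) (W : ℂ) (hx : x.p ∉ interior P)
    (hD : cdet (v (ns v x.p + 1) - v (ns v x.p)) (fr x.g W) ≠ 0) :
    ∃ ε > 0, ∃ d : ℂ, (d = fr x.g W ∨ d = H42I.refl (v (ns v x.p + 1) - v (ns v x.p)) (fr x.g W)) ∧
      (∀ τ : ℝ, -ε < τ → τ < 0 → (sadd hP hk x ((τ : ℂ) * W)).p = x.p + (τ : ℂ) * d ∧
        (sadd hP hk x ((τ : ℂ) * W)).p ∈ interior P) ∧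
      (∀ τ : ℝ, 0 < τ → τ < ε →
        (sadd hP hk x ((τ : ℂ) * W)).p = x.p + (τ : ℂ) * H42I.refl (v (ns v x.p + 1) - v (ns v x.p)) d ∧
        (sadd hP hk x ((τ : ℂ) * W)).p ∈ interior P) := by
  have hpos := rho2_pos hP x.p x.nv
  have hop := mem_open_of_not_int hP x hx
  obtain ⟨_, _, σ, hcut⟩ := ns_open hP hop
  set i := ns v x.p with hi
  set D := fr x.g W with hDdef
  set c := cdet (v (i + 1) - v i) D with hc
  have hσ0 : σ ≠ 0 := by rcases hcut.1 with h | h <;> rw [h] <;> norm_num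
  have hx0 := Pool.Agent.H52W.cdet_side_zero v i x.p (openSegment_subset_segment _ _ _ hop)
  -- local form
  have hlin : ∀ (τ : ℝ) (d : ℂ), cdet (v (i + 1) - v i) (x.p + (τ : ℂ) * d - v i) =
      τ * cdet (v (i + 1) - v i) d := by
    intro τ d
    have e : x.p + (τ : ℂ) * d - v i = (x.p - v i) + (τ : ℂ) * d := by ring
    rw [e, cdet_add, cdet_real, hx0, zero_add]
  have key1 : ∀ τ : ℝ, |τ| < rho2 v x.p / (‖W‖ + 1) → 0 < σ * (τ * c) →
      (sadd hP hk x ((τ : ℂ) * W)).p = x.p + (τ : ℂ) * D ∧ (sadd hP hk x ((τ : ℂ) * W)).p ∈ interior P := by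
    intro τ hτ h1
    have hu := norm_tau W τ (rho2 v x.p) hpos hτ
    have e : x.p + fr x.g ((τ : ℂ) * W) = x.p + (τ : ℂ) * D := by rw [fr_real]
    have hin : x.p + fr x.g ((τ : ℂ) * W) ∈ interior P := by
      apply (hcut.2 _ (ball_fr hu)).1
      rw [e, hlin]; exact h1
    obtain ⟨h3, _⟩ := sadd_int hP hk x _ hu hin
    rw [h3]
    exact ⟨e, hin⟩
  have key2 : ∀ τ : ℝ, |τ| < rho2 v x.p / (‖W‖ + 1) → σ * (τ * c) < 0 →
      (sadd hP hk x ((τ : ℂ) * W)).p = x.p + (τ : ℂ) * (E (2 * kap i) * (starRingEnd ℂ) D) ∧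
      (sadd hP hk x ((τ : ℂ) * W)).p ∈ interior P := by
    intro τ hτ h1
    have hu := norm_tau W τ (rho2 v x.p) hpos hτ
    have e : x.p + fr x.g ((τ : ℂ) * W) = x.p + (τ : ℂ) * D := by rw [fr_real]
    have hout : x.p + fr x.g ((τ : ℂ) * W) ∉ P := by
      apply (hcut.2 _ (ball_fr hu)).2.2
      rw [e, hlin]; exact h1
    obtain ⟨h3, _⟩ := sadd_out hP hk x _ hu hout
    rw [← hi, mir_side hk i x.p (openSegment_subset_segment _ _ _ hop), fr_real, fr_rf, ← hDdef] at h3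
    refine ⟨h3, ?_⟩
    have hb : (sadd hP hk x ((τ : ℂ) * W)).p ∈ ball x.p (rho2 v x.p) := by
      rw [mem_ball, dist_eq_norm]
      exact (sadd_dist hP hk x _).trans_lt hu
    apply (hcut.2 _ hb).1
    rw [h3, hlin, cdet_E_conj hk, ← hc]
    linarith
  refine ⟨rho2 v x.p / (‖W‖ + 1), by positivity, ?_⟩
  have hc0 : σ * c ≠ 0 := mul_ne_zero hσ0 hD
  rcases lt_or_gt_of_ne hc0 with h1 | h1
  · -- the path arrives with the direction `D`
    refine ⟨D, Or.inl rfl, ?_, ?_⟩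
    · intro τ h2 h3
      exact key1 τ (by rw [abs_of_neg h3]; linarith) (by nlinarith)
    · intro τ h2 h3
      rw [refl_eq_E hP hk]
      exact key2 τ (by rw [abs_of_pos h2]; exact h3) (by nlinarith)
  · refine ⟨E (2 * kap i) * (starRingEnd ℂ) D, Or.inr (refl_eq_E hP hk i D).symm, ?_, ?_⟩
    · intro τ h2 h3
      exact key2 τ (by rw [abs_of_neg h3]; linarith) (by nlinarith)
    · intro τ h2 h3
      rw [refl_eq_E hP hk, E_two_conj_conj]
      exact key1 τ (by rw [abs_of_pos h2]; exact h3) (by nlinarith)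

/-- on a side, with a direction parallel to the side -/
def BadDir (v : ZMod n → ℂ) (W : ℂ) (x : SPt P v N) : Prop :=
  x.p ∉ interior P ∧ cdet (v (ns v x.p + 1) - v (ns v x.p)) (fr x.g W) = 0

theorem bad_loc (hP : IsPolygon P v) (hk : Par v kap) (x : SPt P v N) (W : ℂ) :
    ∃ ε > 0, ∀ τ : ℝ, |τ| < ε → (BadDir v W x ↔ BadDir v W (sadd hP hk x ((τ : ℂ) * W))) := by
  by_cases hx : x.p ∈ interior P
  · obtain ⟨ε, hε, h⟩ := loc_int hP hk x W hx
    refine ⟨ε, hε, fun τ hτ => ?_⟩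
    exact ⟨fun h1 => absurd hx h1.1, fun h1 => absurd (h τ hτ).2.1 h1.1⟩
  by_cases hD : cdet (v (ns v x.p + 1) - v (ns v x.p)) (fr x.g W) = 0
  · obtain ⟨ε, hε, h⟩ := loc_par hP hk x W hx hD
    refine ⟨ε, hε, fun τ hτ => ?_⟩
    exact ⟨fun _ => h τ hτ, fun _ => ⟨hx, hD⟩⟩
  · obtain ⟨ε, hε, d, _, h1, h2⟩ := loc_side hP hk x W hx hD
    refine ⟨ε, hε, fun τ hτ => ?_⟩
    rw [abs_lt] at hτ
    refine ⟨fun h3 => absurd h3.2 hD, fun h3 => ?_⟩
    rcases lt_trichotomy τ 0 with h4 | h4 | h4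
    · exact absurd (h1 τ hτ.1 h4).2 h3.1
    · rw [h4, Complex.ofReal_zero, zero_mul, sadd_zero] at h3
      exact h3
    · exact absurd (h2 τ h4 hτ.2).2 h3.1

/-- Main theorem: a path of the surface which exists on `[0, 1)`, starts in the interior and ends straight at `y`. -/
theorem seg_rayS (hP : IsPolygon P v) (hk : Par v kap) (x : SPt P v N) (hx : x.p ∈ interior P) (W : ℂ)
    (hW : W ≠ 0) (hseg : ∀ s ∈ Ico (0 : ℝ) 1, ∃ z, (PS hP hk).Seg x ((s : ℂ) * W) z) (y D : ℂ) (δ : ℝ)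
    (hδ : 0 < δ) (hend : ∀ s : ℝ, 0 ≤ s → 1 - δ < s → s < 1 → ∀ z, (PS hP hk).Seg x ((s : ℂ) * W) z →
      z.p = y + ((s - 1 : ℝ) : ℂ) * D ∧ z.p ∈ interior P) :
    RayS P v x.p y D ∧ D ≠ 0 := by
  classical
  let z : ℝ → SPt P v N := fun s => if h : ∃ z, (PS hP hk).Seg x ((s : ℂ) * W) z then h.choose else x
  have hz : ∀ s ∈ Ico (0 : ℝ) 1, (PS hP hk).Seg x ((s : ℂ) * W) (z s) := by
    intro s hs
    have h := hseg s hs
    show (PS hP hk).Seg x ((s : ℂ) * W) (if h : ∃ z, (PS hP hk).Seg x ((s : ℂ) * W) z then h.choose else x)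
    rw [dif_pos h]
    exact h.choose_spec
  have hz0 : z 0 = x := by
    have h1 := hz 0 ⟨le_rfl, zero_lt_one⟩
    rw [Complex.ofReal_zero, zero_mul] at h1
    exact TSurf.seg_unique h1 (TSurf.seg_refl x)
  -- the local condition
  have hloc : ∀ t ∈ Ico (0 : ℝ) 1, ∃ ε > 0, ∀ s ∈ Ico (0 : ℝ) 1, |s - t| < ε →
      z s = sadd hP hk (z t) (((s - t : ℝ) : ℂ) * W) := by
    intro t ht
    have hpos := rho2_pos hP (z t).p (z t).nv
    refine ⟨rho2 v (z t).p / (‖W‖ + 1), by positivity, ?_⟩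
    intro s hs hst
    have hu := norm_tau W (s - t) (rho2 v (z t).p) hpos hst
    have h1 : (PS hP hk).Seg (z t) (((s - t : ℝ) : ℂ) * W) (sadd hP hk (z t) (((s - t : ℝ) : ℂ) * W)) :=
      TSurf.seg_add (M := PS hP hk) (x := z t) hu
    have h2 := TSurf.seg_line (hz t ht) h1
    have e : t + (s - t) = s := by ring
    rw [e] at h2
    exact TSurf.seg_unique (hz s hs) h2
  -- never parallel to a side at a side
  have hgood : ∀ t ∈ Ico (0 : ℝ) 1, ¬ BadDir v W (z t) := by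
    intro t ht hbad
    have h0 : (0 : ℝ) ∈ Ico (0 : ℝ) 1 := ⟨le_rfl, zero_lt_one⟩
    have h1 := H32D.prop_const (I := Ico (0 : ℝ) 1) ordConnected_Ico (fun s => BadDir v W (z s)) (by
      intro s hs
      obtain ⟨ε, hε, h2⟩ := hloc s hs
      obtain ⟨ε', hε', h3⟩ := bad_loc hP hk (z s) W
      refine ⟨min ε ε', lt_min hε hε', fun s' hs' h4 => ?_⟩
      have h5 := h2 s' hs' (h4.trans_le (min_le_left _ _))
      show BadDir v W (z s) ↔ BadDir v W (z s')
      rw [h5]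
      exact h3 (s' - s) (h4.trans_le (min_le_right _ _))) ht h0
    have h6 : BadDir v W (z 0) := h1.1 hbad
    rw [hz0] at h6
    exact h6.1 hx
  -- the path
  let φ : ℝ → ℂ := fun s => if s < 1 then (z s).p else y
  have hφ : ∀ s, s < 1 → φ s = (z s).p := fun s hs => by
    show (if s < 1 then (z s).p else y) = (z s).p
    rw [if_pos hs]
  have hφ1 : φ 1 = y := by
    show (if (1 : ℝ) < 1 then (z 1).p else y) = y
    rw [if_neg (lt_irrefl _)]
  have hφ0 : φ 0 = x.p := by rw [hφ 0 zero_lt_one, hz0]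
  -- start
  obtain ⟨ε₀, hε₀, hl0⟩ := hloc 0 ⟨le_rfl, zero_lt_one⟩
  obtain ⟨ε₁, hε₁, hi0⟩ := loc_int hP hk x W hx
  rw [hz0] at hl0
  have hfrW : fr x.g W ≠ 0 := by
    intro h
    apply hW
    have h1 := norm_fr x.g W
    rw [h, norm_zero] at h1
    exact norm_eq_zero.1 h1.symm
  set δ' : ℝ := min (min ε₀ ε₁) (min δ 1) with hδ'
  have hδ'0 : 0 < δ' := lt_min (lt_min hε₀ hε₁) (lt_min hδ one_pos)
  have hδa : δ' ≤ ε₀ := (min_le_left _ _).trans (min_le_left _ _)
  have hδb : δ' ≤ ε₁ := (min_le_left _ _).trans (min_le_right _ _)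
  have hδc : δ' ≤ δ := (min_le_right _ _).trans (min_le_left _ _)
  have hδd : δ' ≤ 1 := (min_le_right _ _).trans (min_le_right _ _)
  have hstart : ∀ s : ℝ, 0 ≤ s → s < 0 + δ' → φ s = φ 0 + ((s - 0 : ℝ) : ℂ) * fr x.g W ∧ φ s ∈ interior P := by
    intro s h1 h2
    have h3 : s < 1 := by linarith
    have h4 : |s - 0| < ε₀ := by rw [sub_zero, abs_of_nonneg h1]; linarith
    have h5 : |s - 0| < ε₁ := by rw [sub_zero, abs_of_nonneg h1]; linarith
    have h6 := hl0 s ⟨h1, h3⟩ h4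
    have h7 := hi0 (s - 0) h5
    rw [hφ s h3, hφ0, h6]
    exact ⟨h7.1, h7.2.1⟩
  have hend' : ∀ s : ℝ, 1 - δ' < s → s < 1 → φ s = φ 1 + ((s - 1 : ℝ) : ℂ) * D ∧ φ s ∈ interior P := by
    intro s h1 h2
    have h3 : 0 ≤ s := by linarith
    have h4 := hend s h3 (by linarith) h2 (z s) (hz s ⟨h3, h2⟩)
    rw [hφ s h2, hφ1]
    exact h4
  have hres := raypath (P := P) (v := v) (φ := φ) (a := 0) (b := 1) zero_lt_one hδ'0 (fr x.g W) D hfrW
    (fun i => Pool.Agent.H52W.side_ne_of_polygon hP i)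
    (fun s h1 h2 => (hstart s h1 h2).1) (fun s h1 h2 => (hstart s h1.le h2).2)
    (by
      intro s h1 h2
      rcases h2.lt_or_eq with h3 | h3
      · exact (hend' s h1 h3).1
      · rw [h3]; simp)
    (fun s h1 h2 => (hend' s h1 h2).2) ?_
  · rw [hφ0, hφ1] at hres
    exact hres
  -- in between
  intro t ht0 ht1
  have htI : t ∈ Ico (0 : ℝ) 1 := ⟨ht0.le, ht1⟩
  obtain ⟨ε, hε, hl⟩ := hloc t htI
  have hφt := hφ t ht1
  by_cases hint : (z t).p ∈ interior P
  · obtain ⟨ε', hε', h1⟩ := loc_int hP hk (z t) W hint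
    set η : ℝ := min (min ε ε') (min t (1 - t)) with hη
    have hη0 : 0 < η := lt_min (lt_min hε hε') (lt_min ht0 (by linarith))
    have ha : η ≤ ε := (min_le_left _ _).trans (min_le_left _ _)
    have hb : η ≤ ε' := (min_le_left _ _).trans (min_le_right _ _)
    have hc : η ≤ t := (min_le_right _ _).trans (min_le_left _ _)
    have hd : η ≤ 1 - t := (min_le_right _ _).trans (min_le_right _ _)
    have h2 : ∀ s, t - η < s → s < t + η → φ s = φ t + ((s - t : ℝ) : ℂ) * fr (z t).g W ∧ φ s ∈ interior P := by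
      intro s h3 h4
      have h5 : |s - t| < η := by rw [abs_lt]; constructor <;> linarith
      have h6 := hl s ⟨by linarith, by linarith⟩ (h5.trans_le ha)
      have h7 := h1 (s - t) (h5.trans_le hb)
      rw [hφ s (by linarith), hφt, h6]
      exact ⟨h7.1, h7.2.1⟩
    refine ⟨η, hη0, fr (z t).g W, ?_, ?_, Or.inl ⟨?_, ?_⟩⟩
    · intro s h3 h4
      exact (h2 s h3 (by linarith)).1
    · intro s h3 h4 _
      exact (h2 s h3 h4).2
    · rw [hφt]; exact hint
    · intro s h3 h4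
      exact (h2 s (by linarith) h4).1
  · have hD : cdet (v (ns v (z t).p + 1) - v (ns v (z t).p)) (fr (z t).g W) ≠ 0 := fun h =>
      hgood t htI ⟨hint, h⟩
    obtain ⟨ε', hε', d, _, h1, h1'⟩ := loc_side hP hk (z t) W hint hD
    set η : ℝ := min (min ε ε') (min t (1 - t)) with hη
    have hη0 : 0 < η := lt_min (lt_min hε hε') (lt_min ht0 (by linarith))
    have ha : η ≤ ε := (min_le_left _ _).trans (min_le_left _ _)
    have hb : η ≤ ε' := (min_le_left _ _).trans (min_le_right _ _)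
    have hc : η ≤ t := (min_le_right _ _).trans (min_le_left _ _)
    have hd : η ≤ 1 - t := (min_le_right _ _).trans (min_le_right _ _)
    have h2 : ∀ s, t - η < s → s < t → φ s = φ t + ((s - t : ℝ) : ℂ) * d ∧ φ s ∈ interior P := by
      intro s h3 h4
      have h5 : |s - t| < η := by rw [abs_lt]; constructor <;> linarith
      have h6 := hl s ⟨by linarith, by linarith⟩ (h5.trans_le ha)
      have h7 := h1 (s - t) (by linarith) (by linarith)
      rw [hφ s (by linarith), hφt, h6]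
      exact h7
    have h2' : ∀ s, t < s → s < t + η → φ s = φ t + ((s - t : ℝ) : ℂ) *
        H42I.refl (v (ns v (z t).p + 1) - v (ns v (z t).p)) d ∧ φ s ∈ interior P := by
      intro s h3 h4
      have h5 : |s - t| < η := by rw [abs_lt]; constructor <;> linarith
      have h6 := hl s ⟨by linarith, by linarith⟩ (h5.trans_le ha)
      have h7 := h1' (s - t) (by linarith) (by linarith)
      rw [hφ s (by linarith), hφt, h6]
      exact h7
    refine ⟨η, hη0, d, ?_, ?_, Or.inr ⟨ns v (z t).p, ?_, ?_⟩⟩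
    · intro s h3 h4
      rcases h4.lt_or_eq with h5 | h5
      · exact (h2 s h3 h5).1
      · rw [h5]; simp
    · intro s h3 h4 h5
      rcases lt_or_gt_of_ne h5 with h6 | h6
      · exact (h2 s h3 h6).2
      · exact (h2' s h6 h4).2
    · rw [hφt]
      exact mem_open_of_not_int hP (z t) hint
    · intro s h3 h4
      rcases h3.lt_or_eq with h5 | h5
      · exact (h2' s h5 h4).1
      · rw [← h5]; simp

/-- A segment of the surface from an interior point gives a light ray, with its direction of arrival. -/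
theorem seg_ray_fr (hP : IsPolygon P v) (hk : Par v kap) (x y : SPt P v N) (hx : x.p ∈ interior P) (W : ℂ)
    (hW : W ≠ 0) (h : (PS hP hk).Seg x W y) :
    ∃ g : Fr N, RayS P v x.p y.p (fr g W) ∧ (y.p ∈ interior P → g = y.g) := by
  have hseg : ∀ s ∈ Icc (0 : ℝ) 1, ∃ z, (PS hP hk).Seg x ((s : ℂ) * W) z := by
    intro s hs
    obtain ⟨z, hz, _⟩ := TSurf.seg_split h hs
    exact ⟨z, hz⟩
  have h1W : (PS hP hk).Seg x (((1 : ℝ) : ℂ) * W) y := by rw [Complex.ofReal_one, one_mul]; exact h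
  have hpos := rho2_pos hP y.p y.nv
  -- points near the end
  have hnear : ∀ s : ℝ, |s - 1| < rho2 v y.p / (‖W‖ + 1) → ∀ z, (PS hP hk).Seg x ((s : ℂ) * W) z →
      z = sadd hP hk y (((s - 1 : ℝ) : ℂ) * W) := by
    intro s hs z hz
    have hu := norm_tau W (s - 1) (rho2 v y.p) hpos hs
    have h2 : (PS hP hk).Seg y (((s - 1 : ℝ) : ℂ) * W) (sadd hP hk y (((s - 1 : ℝ) : ℂ) * W)) :=
      TSurf.seg_add (M := PS hP hk) (x := y) hu
    have h3 := TSurf.seg_line h1W h2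
    have e : 1 + (s - 1) = s := by ring
    rw [e] at h3
    exact TSurf.seg_unique hz h3
  have hfin : ∀ (D : ℂ) (δ : ℝ), 0 < δ → (∀ s : ℝ, 0 ≤ s → 1 - δ < s → s < 1 → ∀ z,
      (PS hP hk).Seg x ((s : ℂ) * W) z → z.p = y.p + ((s - 1 : ℝ) : ℂ) * D ∧ z.p ∈ interior P) →
      RayS P v x.p y.p D := by
    intro D δ hδ hend
    exact (seg_rayS hP hk x hx W hW (fun s hs => hseg s ⟨hs.1, hs.2.le⟩) y.p D δ hδ hend).1
  by_cases hy : y.p ∈ interior P
  · obtain ⟨ε, hε, h1⟩ := loc_int hP hk y W hy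
    refine ⟨y.g, hfin (fr y.g W) (min ε (rho2 v y.p / (‖W‖ + 1))) (lt_min hε (by positivity)) ?_, fun _ => rfl⟩
    intro s _ h3 h4 z hz
    have h5 : |s - 1| < min ε (rho2 v y.p / (‖W‖ + 1)) := by
      rw [abs_of_neg (by linarith)]; linarith
    have h6 := hnear s (h5.trans_le (min_le_right _ _)) z hz
    have h7 := h1 (s - 1) (h5.trans_le (min_le_left _ _))
    rw [h6]
    exact ⟨h7.1, h7.2.1⟩
  · -- the direction is transversal to the side
    have hD : cdet (v (ns v y.p + 1) - v (ns v y.p)) (fr y.g W) ≠ 0 := by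
      intro hbad
      -- the whole path would be on the side
      obtain ⟨zz, hz0, hz1, hzl⟩ := h
      have h0 : (0 : ℝ) ∈ Icc (0 : ℝ) 1 := ⟨le_rfl, zero_le_one⟩
      have h1 : (1 : ℝ) ∈ Icc (0 : ℝ) 1 := ⟨zero_le_one, le_rfl⟩
      have h2 := H32D.prop_const (I := Icc (0 : ℝ) 1) ordConnected_Icc (fun s => BadDir v W (zz s)) (by
        intro s hs
        obtain ⟨ε, hε, h3⟩ := hzl s hs
        obtain ⟨ε', hε', h4⟩ := bad_loc hP hk (zz s) W
        refine ⟨min ε ε', lt_min hε hε', fun s' hs' h5 => ?_⟩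
        have h6 := h3 s' hs' (h5.trans_le (min_le_left _ _))
        show BadDir v W (zz s) ↔ BadDir v W (zz s')
        rw [h6]
        exact h4 (s' - s) (h5.trans_le (min_le_right _ _))) h1 h0
      have h3 : BadDir v W (zz 0) := h2.1 (by rw [hz1]; exact ⟨hy, hbad⟩)
      rw [hz0] at h3
      exact h3.1 hx
    obtain ⟨ε, hε, d, hd, h1, _⟩ := loc_side hP hk y W hy hD
    obtain ⟨g, hg⟩ : ∃ g : Fr N, fr g W = d := by
      rcases hd with h2 | h2
      · exact ⟨y.g, h2.symm⟩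
      · exact ⟨rf kap (ns v y.p) y.g, by rw [fr_rf, h2, refl_eq_E hP hk]⟩
    refine ⟨g, ?_, fun h2 => absurd h2 hy⟩
    rw [hg]
    refine hfin d (min ε (rho2 v y.p / (‖W‖ + 1))) (lt_min hε (by positivity)) ?_
    intro s _ h3 h4 z hz
    have h5 : |s - 1| < min ε (rho2 v y.p / (‖W‖ + 1)) := by
      rw [abs_of_neg (by linarith)]; linarith
    have h6 := hnear s (h5.trans_le (min_le_right _ _)) z hz
    have h8 : min ε (rho2 v y.p / (‖W‖ + 1)) ≤ ε := min_le_left _ _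
    have h7 := h1 (s - 1) (by linarith) (by linarith)
    rw [h6]
    exact h7

/-- A segment of the surface from an interior point gives a light ray. -/
theorem seg_ray (hP : IsPolygon P v) (hk : Par v kap) (x y : SPt P v N) (hx : x.p ∈ interior P) (W : ℂ)
    (hW : W ≠ 0) (h : (PS hP hk).Seg x W y) : ∃ d, Ray P v x.p y.p d := by
  obtain ⟨g, ⟨c, _, hc⟩, _⟩ := seg_ray_fr hP hk x y hx W hW h
  exact ⟨_, hc⟩

/-- prolongation of a light ray inside the polygon -/
theorem rayS_prolong {q z w d : ℂ} (hz : z ∈ interior P) (h : RayS P v q z d) (t : ℝ) (ht : 0 < t)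
    (hw : w = z + (t : ℂ) * d) (hs : openSegment ℝ z w ⊆ interior P) : RayS P v q w d := by
  by_cases hd : d = 0
  · rw [hd, mul_zero, add_zero] at hw
    rw [hw]
    exact h
  · rw [hw] at hs ⊢
    exact Pool.Agent.Lib.H42I.ray_extend q z d t hd ht h hz hs

end

end Pool.Agent.Lib.H42D
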