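import Pool.Agent.Lib.H42D.Cyl

/-! # Chunk CGeneric (S/M): countability (port of H25R/Generic) -/

namespace Pool.Agent.Lib.H42D

variable {S : Type}

private theorem CGeneric_lin (c k w : ℝ) (hk : k ≠ 0) (hw : w ≠ 0) :
    {b : ℝ | c + k * (b / w) = 0}.Subsingleton := by
  intro b hb b' hb'
  simp only [Set.mem_ofPred_eq] at hb hb'
  have h1 : k * (b / w) = k * (b' / w) := by linarith
  have h2 : b / w = b' / w := mul_left_cancel₀ hk h1
  rwa [div_left_inj' hw] at h2

/-- For every `(n, k)` with `k ≠ 0` there is at most one `r`. -/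
theorem cgen_countable (C : Cyl S) [Fintype S] (s : S) : {r : ℝ | ¬ CGen C s r}.Countable := by
  have hA : (⋃ i : {i : (S → ℤ) × ℤ // i.2 ≠ 0},
      {b : ℝ | (∑ z, (i.1.1 z : ℝ) * (C.w z / C.L z)) + (i.1.2 : ℝ) * (b / C.L s) = 0}).Countable := by
    refine Set.countable_iUnion fun i => ?_
    exact (CGeneric_lin _ _ _ (by exact_mod_cast i.2) (C.L_pos s).ne').countable
  refine hA.mono fun r hr => ?_
  simp only [CGen, Set.mem_ofPred_eq, not_forall] at hr
  obtain ⟨n, k, h, hk⟩ := hr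
  exact Set.mem_iUnion.2 ⟨⟨(n, k), hk⟩, h⟩

/-- If `ρ` is generic (for `t`) then all but countably many `r` are independent of it. -/
theorem cindep_countable (C : Cyl S) [Fintype S] (s t : S) {ρ : ℝ} (h : CGen C t ρ) :
    {r : ℝ | ¬ CIndep C s r t ρ}.Countable := by
  have hA : (⋃ i : {i : ((S → ℤ) × ℤ) × ℤ // i.2 ≠ 0},
      {b : ℝ | ((∑ z, (i.1.1.1 z : ℝ) * (C.w z / C.L z)) + (i.1.1.2 : ℝ) * (ρ / C.L t)) +
        (i.1.2 : ℝ) * (b / C.L s) = 0}).Countable := by
    refine Set.countable_iUnion fun i => ?_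
    exact (CGeneric_lin _ _ _ (by exact_mod_cast i.2) (C.L_pos s).ne').countable
  refine hA.mono fun r hr => ?_
  simp only [CIndep, Set.mem_ofPred_eq, not_forall] at hr
  obtain ⟨n, k, l, h1, h2⟩ := hr
  have hk : k ≠ 0 := by
    intro hk
    refine h2 ⟨hk, h n l ?_⟩
    rw [hk, Int.cast_zero, zero_mul, add_zero] at h1
    exact h1
  refine Set.mem_iUnion.2 ⟨⟨((n, l), k), hk⟩, ?_⟩
  simp only [Set.mem_ofPred_eq]
  linarith

theorem cgen_of_indep (C : Cyl S) [Fintype S] {s t : S} {r ρ : ℝ} (h : CIndep C s r t ρ) :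
    CGen C s r ∧ CGen C t ρ := by
  constructor
  · intro n k hk
    refine (h n k 0 ?_).1
    rw [Int.cast_zero, zero_mul, add_zero]
    exact hk
  · intro n k hk
    refine (h n 0 k ?_).2
    rw [Int.cast_zero, zero_mul, add_zero]
    exact hk

/-- not generic = rational -/
theorem crat_of_not_gen (C : Cyl S) [Fintype S] {t : S} {ρ : ℝ} (h : ¬ CGen C t ρ) :
    CRat C t ρ := by
  simp only [CGen, not_forall] at h
  obtain ⟨n, k, h1, hk⟩ := h
  refine ⟨k, fun z => -n z, hk, ?_⟩
  have h2 : ∑ z, ((-n z : ℤ) : ℝ) * (C.w z / C.L z) = -∑ z, (n z : ℝ) * (C.w z / C.L z) := by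
    rw [← Finset.sum_neg_distrib]
    refine Finset.sum_congr rfl fun z _ => ?_
    push_cast
    ring
  rw [h2]
  linarith

/-- The upper boundary of a cylinder has a rational height (`m = 1`, `n` = the indicator of `t`). -/
theorem crat_top (C : Cyl S) [Fintype S] [DecidableEq S] (t : S) : CRat C t (C.w t) := by
  refine ⟨1, fun z => if z = t then 1 else 0, one_ne_zero, ?_⟩
  rw [Finset.sum_eq_single t]
  · simp
  · intro b _ hb
    simp [hb]
  · intro h
    exact absurd (Finset.mem_univ t) h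

/-- The field `KF C` is countable (`S` finite). -/
theorem kf_countable (C : Cyl S) [Fintype S] : (KF C : Set ℝ).Countable := by
  have hs : (Set.range C.w ∪ Set.range C.L).Countable :=
    ((Set.finite_range C.w).union (Set.finite_range C.L)).countable
  rw [← Set.countable_coe_iff, ← Cardinal.mk_le_aleph0_iff] at hs ⊢
  refine (Subfield.cardinalMk_closure_le_max _).trans ?_
  exact max_le hs le_rfl

/-- A relation gives an element of the field. -/
theorem kf_of_rel (C : Cyl S) [Fintype S] {s t : S} {r ρ : ℝ} (n : S → ℤ) (k l : ℤ) (hl : l ≠ 0)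
    (h : (∑ z, (n z : ℝ) * (C.w z / C.L z)) + k * (r / C.L s) + l * (ρ / C.L t) = 0) :
    ∃ κ ∈ KF C, ρ = -(k * C.L t) / (l * C.L s) * r + κ := by
  have hw : ∀ z, C.w z ∈ KF C := fun z =>
    Subfield.subset_closure (Or.inl (Set.mem_range_self z))
  have hL : ∀ z, C.L z ∈ KF C := fun z =>
    Subfield.subset_closure (Or.inr (Set.mem_range_self z))
  have hl' : (l : ℝ) ≠ 0 := by exact_mod_cast hl
  refine ⟨-((C.L t / l) * ∑ z, (n z : ℝ) * (C.w z / C.L z)), ?_, ?_⟩
  · refine neg_mem (mul_mem (div_mem (hL t) (intCast_mem _ l)) (sum_mem fun z _ => ?_))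
    exact mul_mem (intCast_mem _ _) (div_mem (hw z) (hL z))
  · have h1 := (C.L_pos s).ne'
    have h2 := (C.L_pos t).ne'
    have h3 : ∑ z, (n z : ℝ) * (C.w z / C.L z) = -(k * (r / C.L s)) - l * (ρ / C.L t) := by linarith
    rw [h3]
    field_simp
    ring

/-- A countable set can be avoided in every interval. -/
private theorem CGeneric_avoid {A : Set ℝ} (hA : A.Countable) {p q : ℝ} (hpq : p < q) :
    ∃ b, p < b ∧ b < q ∧ b ∉ A := by
  obtain ⟨z, hz, h1, h2⟩ := (hA.dense_compl ℝ).exists_between hpq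
  exact ⟨z, h1, h2, hz⟩

/-- If for every `u` in an open interval one of countably many relations holds then one of them
holds for two different values of `u` (H25R/Generic `uncount`). -/
theorem uncount {ι : Type} [Countable ι] (Q : ι → ℝ → Prop) {p q : ℝ} (hpq : p < q)
    (h : ∀ u, p < u → u < q → ∃ i, Q i u) :
    ∃ i u v, u ≠ v ∧ p < u ∧ u < q ∧ p < v ∧ v < q ∧ Q i u ∧ Q i v := by
  by_contra hc
  push Not at hc
  have hA : (⋃ i : ι, {u : ℝ | p < u ∧ u < q ∧ Q i u}).Countable := by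
    refine Set.countable_iUnion fun i => ?_
    refine Set.Subsingleton.countable ?_
    rintro u ⟨hu1, hu2, hu3⟩ v ⟨hv1, hv2, hv3⟩
    by_contra huv
    exact hc i u v huv hu1 hu2 hv1 hv2 hu3 hv3
  obtain ⟨u, h1, h2, h3⟩ := CGeneric_avoid hA hpq
  obtain ⟨i, hi⟩ := h u h1 h2
  exact h3 (Set.mem_iUnion.2 ⟨i, h1, h2, hi⟩)

/-- A countable set can be avoided in every interval. -/
theorem avoid {A : Set ℝ} (hA : A.Countable) {p q : ℝ} (hpq : p < q) :
    ∃ b, p < b ∧ b < q ∧ b ∉ A :=
  CGeneric_avoid hA hpq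

end Pool.Agent.Lib.H42D
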