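import Pool.Agent.Lib.H42D.Cyl

/-! # Chunk CHMove (M): shear closure for cylinder surfaces (port of H25R/HMove, simpler) -/

namespace Pool.Agent.Lib.H42D

variable {S : Type}

/-- the statement of the induction -/
def chmoveGood (C : Cyl S) (c₀ : ℝ) (s : S) (u' r : ℝ) (t : S) (v' ρ : ℝ) : Prop :=
  ∃ D : ℝ, 0 < D ∧ ∀ v₀ : ℝ, 0 ≤ v₀ → ∃ δ : ℝ, 0 < δ ∧ ∀ η : ℝ, 0 < η → ∃ ε : ℝ, 0 < ε ∧
    ∀ τ : ℝ, (∀ z, ∃ m : ℤ, |τ * C.w z - m * C.L z| < ε) →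
      ∀ a₀ : ℝ, (∃ m : ℤ, |a₀ - τ * r - u' - m * C.L s| < ε) →
        ∃ P₀ : ℝ, (∃ m : ℤ, |P₀ - τ * ρ - v' - m * C.L t| < η) ∧
          ∀ σ : ℝ, |σ| < δ → ∀ v : ℝ, (∃ m : ℤ, v = P₀ + (v₀ + D) * σ + m * C.L t) →
            CLine C (c₀ + τ + σ) s (a₀ + v₀ * σ) r t v ρ

theorem chmoveGood_here (C : Cyl S) {c₀ : ℝ} (s : S) (u' r v' ρ : ℝ) (m₀ : ℤ) (hr : r < ρ)
    (hρ : ρ ≤ C.w s) (hv : v' = u' + c₀ * (ρ - r) + m₀ * C.L s) :
    chmoveGood C c₀ s u' r s v' ρ := by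
  refine ⟨ρ - r, by linarith, ?_⟩
  intro v₀ _
  refine ⟨1, one_pos, ?_⟩
  intro η hη
  refine ⟨η, hη, ?_⟩
  intro τ _ a₀ ha₀
  obtain ⟨m, hm⟩ := ha₀
  refine ⟨a₀ + (c₀ + τ) * (ρ - r), ⟨m - m₀, ?_⟩, ?_⟩
  · have e : a₀ + (c₀ + τ) * (ρ - r) - τ * ρ - v' - ((m - m₀ : ℤ) : ℝ) * C.L s =
        a₀ - τ * r - u' - m * C.L s := by
      rw [hv]
      push_cast
      ring
    rw [e]
    exact hm
  · intro σ _ v hv2
    obtain ⟨m', hm'⟩ := hv2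
    refine CLine.here s _ r v ρ m' hr hρ ?_
    rw [hm']
    ring

theorem chmoveGood_up (C : Cyl S) {c₀ : ℝ} (s : S) (u' r : ℝ) (s₁ : S) (u₁ : ℝ) (t : S)
    (v' ρ : ℝ) (hr : r < C.w s) (hx : C.Cross s (u' + c₀ * (C.w s - r)) s₁ u₁)
    (ih : chmoveGood C c₀ s₁ u₁ 0 t v' ρ) : chmoveGood C c₀ s u' r t v' ρ := by
  obtain ⟨D₁, hD₁, ih⟩ := ih
  have hwr : 0 < C.w s - r := by linarith
  refine ⟨D₁ + (C.w s - r), by linarith, ?_⟩
  intro v₀ hv₀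
  obtain ⟨δ₁, hδ₁, ih⟩ := ih (v₀ + (C.w s - r)) (by linarith)
  obtain ⟨e₀, he₀, hopen⟩ := C.cross_open _ _ _ _ hx
  set v₀' : ℝ := v₀ + (C.w s - r) with hv₀'
  have hv₀'pos : 0 < v₀' := by rw [hv₀']; linarith
  refine ⟨min δ₁ (e₀ / (2 * v₀')), lt_min hδ₁ (by positivity), ?_⟩
  intro η hη
  obtain ⟨ε₁, hε₁, ih⟩ := ih η hη
  refine ⟨min (ε₁ / 2) (e₀ / 4), lt_min (by linarith) (by linarith), ?_⟩
  intro τ hret a₀ ha₀
  have hε_1 : min (ε₁ / 2) (e₀ / 4) ≤ ε₁ / 2 := min_le_left _ _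
  have hε_2 : min (ε₁ / 2) (e₀ / 4) ≤ e₀ / 4 := min_le_right _ _
  obtain ⟨m, hm⟩ := ha₀
  obtain ⟨mx, hmx⟩ := hret s
  set ζ₀ : ℝ := (a₀ - τ * r - u' - m * C.L s) + (τ * C.w s - mx * C.L s) with hζ₀
  have habs : |ζ₀| < 2 * min (ε₁ / 2) (e₀ / 4) := by
    have := abs_add_le (a₀ - τ * r - u' - m * C.L s) (τ * C.w s - mx * C.L s)
    linarith
  obtain ⟨P₀, hP₀, ih⟩ := ih τ (fun z => by
      obtain ⟨mz, hmz⟩ := hret z
      exact ⟨mz, by linarith⟩) (u₁ + ζ₀) ⟨0, by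
      have e : u₁ + ζ₀ - τ * 0 - u₁ - ((0 : ℤ) : ℝ) * C.L s₁ = ζ₀ := by
        push_cast
        ring
      rw [e]
      linarith⟩
  refine ⟨P₀, hP₀, ?_⟩
  intro σ hσ v hv
  obtain ⟨m', hm'⟩ := hv
  have hσ1 : |σ| < δ₁ := lt_of_lt_of_le hσ (min_le_left _ _)
  have hσ2 : |σ| ≤ e₀ / (2 * v₀') := (lt_of_lt_of_le hσ (min_le_right _ _)).le
  have hvs : |v₀' * σ| ≤ e₀ / 2 := by
    rw [abs_mul, abs_of_pos hv₀'pos]
    have h1 := mul_le_mul_of_nonneg_left hσ2 hv₀'pos.le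
    have e : v₀' * (e₀ / (2 * v₀')) = e₀ / 2 := by
      field_simp
    linarith
  have hζ : |ζ₀ + v₀' * σ| < e₀ := by
    have := abs_add_le ζ₀ (v₀' * σ)
    linarith
  have hrow := ih σ hσ1 v ⟨m', by
    rw [hm', hv₀']
    ring⟩
  have hcross := C.cross_per _ _ _ _ (m + mx) (hopen _ hζ)
  refine CLine.up s _ r s₁ (u₁ + ζ₀ + v₀' * σ) t v ρ hr ?_ hrow
  have e1 : a₀ + v₀ * σ + (c₀ + τ + σ) * (C.w s - r) =
      u' + c₀ * (C.w s - r) + (ζ₀ + v₀' * σ) + ((m + mx : ℤ) : ℝ) * C.L s := by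
    rw [hζ₀, hv₀']
    push_cast
    ring
  have e2 : u₁ + ζ₀ + v₀' * σ = u₁ + (ζ₀ + v₀' * σ) := by ring
  rw [e1, e2]
  exact hcross

theorem chmoveGood_of (C : Cyl S) {c₀ : ℝ} {s t : S} {u' r v' ρ : ℝ}
    (h : CLine C c₀ s u' r t v' ρ) : chmoveGood C c₀ s u' r t v' ρ := by
  induction h with
  | here s u r v ρ m hr hρ hv => exact chmoveGood_here C s u r v ρ m hr hρ hv
  | up s u r s₁ u₁ t v ρ hr hx hl ih => exact chmoveGood_up C s u r s₁ u₁ t v ρ hr hx ih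

/-- Given a path of slope `c₀` from `(s,u',r)` to `(t,v',ρ)` there is `ε > 0` such that for every return
`τ` (all `τ w z` are `ε`-close to multiples of `L z`), every `u` with `u - τ r = u'` and every `v` with
`v - τ ρ = v'` (modulo the circumference, up to `ε`) there is a path from `(s,u,r)` to `(t,v,ρ)` whose
slope is within `1` of `c₀ + τ`. (No lower bound on `τ` is needed, positions are modulo `L`.)
PROOF (see `HGood` in H25R/HMove.lean). Statement of the induction on the path, `D > 0` the total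
height: for every `v₀ ≥ 0` there is `δ > 0` such that for every `η > 0` there is `ε > 0` such that for all
returns `τ`, all `a₀` with `|a₀ - τ r - u' - m L s| < ε` there is `P₀` with
`|P₀ - τ ρ - v' - m' L t| < η` and for all `|σ| < δ` and all `v` congruent to `P₀ + (v₀ + D) σ`
modulo `L t`: `CLine C (c₀ + τ + σ) s (a₀ + v₀ σ) r t v ρ`. Case `up`: `cross_open` (the margin) and
`cross_per`. END: solve `D σ = v - P₀` modulo `L t` with `v₀ = 0`. -/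
theorem chmove (C : Cyl S) {c₀ : ℝ} {s t : S} {u' r v' ρ : ℝ} (h : CLine C c₀ s u' r t v' ρ) :
    ∃ ε : ℝ, 0 < ε ∧ ∀ τ : ℝ, (∀ z, ∃ m : ℤ, |τ * C.w z - m * C.L z| < ε) →
      ∀ u v : ℝ, (∃ m : ℤ, |u - τ * r - u' - m * C.L s| < ε) →
        (∃ m : ℤ, |v - τ * ρ - v' - m * C.L t| < ε) →
        ∃ c : ℝ, |c - (c₀ + τ)| < 1 ∧ CLine C c s u r t v ρ := by
  obtain ⟨D, hD, h⟩ := chmoveGood_of C h
  obtain ⟨δ, hδ, h⟩ := h 0 le_rfl
  have hδ' : 0 < min δ 1 := lt_min hδ one_pos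
  obtain ⟨ε₀, hε₀, h⟩ := h (D * min δ 1 / 4) (by positivity)
  refine ⟨min ε₀ (D * min δ 1 / 4), lt_min hε₀ (by positivity), ?_⟩
  intro τ hret u v hu hv
  obtain ⟨P₀, ⟨m1, hm1⟩, h⟩ := h τ (fun z => by
      obtain ⟨mz, hmz⟩ := hret z
      exact ⟨mz, lt_of_lt_of_le hmz (min_le_left _ _)⟩) u (by
      obtain ⟨m, hm⟩ := hu
      exact ⟨m, lt_of_lt_of_le hm (min_le_left _ _)⟩)
  obtain ⟨m2, hm2⟩ := hv
  have hm2' : |v - τ * ρ - v' - m2 * C.L t| < D * min δ 1 / 4 :=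
    lt_of_lt_of_le hm2 (min_le_right _ _)
  have hdiff : |v - P₀ - ((m2 : ℝ) - m1) * C.L t| < D * min δ 1 := by
    have e : v - P₀ - ((m2 : ℝ) - m1) * C.L t =
        (v - τ * ρ - v' - m2 * C.L t) - (P₀ - τ * ρ - v' - m1 * C.L t) := by ring
    rw [e]
    have h1 := abs_sub (v - τ * ρ - v' - m2 * C.L t) (P₀ - τ * ρ - v' - m1 * C.L t)
    have h2 : 0 < D * min δ 1 := by positivity
    linarith
  have hσ : |(v - P₀ - ((m2 : ℝ) - m1) * C.L t) / D| < min δ 1 := by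
    rw [abs_div, abs_of_pos hD, div_lt_iff₀ hD]
    linarith
  have hrow := h _ (lt_of_lt_of_le hσ (min_le_left _ _)) v ⟨m2 - m1, by
    push_cast
    field_simp
    ring⟩
  rw [zero_mul, add_zero] at hrow
  refine ⟨_, ?_, hrow⟩
  rw [add_sub_cancel_left]
  exact lt_of_lt_of_le hσ (min_le_right _ _)

end Pool.Agent.Lib.H42D
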