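import Pool.Agent.Lib.H42D.CHMove
import Pool.Agent.Lib.H25R.Kron

/-! # Chunk CMoveDep (S/M): port of H25R/MoveDep -/

namespace Pool.Agent.Lib.H42D

variable {S : Type}

private theorem cmd_aux {w t p q e E B : ℝ} {m : ℤ} (hw : 0 < w) (hB : 0 < B) (hwB : w ≤ B)
    (hE : e = E / B) (hE0 : 0 < E) (h : |t * (p / w) - q - m| < e) :
    |t * p - q * w - m * w| < E := by
  have h1 : t * p - q * w - m * w = (t * (p / w) - q - m) * w := by
    field_simp
  rw [h1, abs_mul, abs_of_pos hw]
  calc |t * (p / w) - q - m| * w < e * w := mul_lt_mul_of_pos_right h hw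
    _ ≤ e * B := by
        apply mul_le_mul_of_nonneg_left hwB
        rw [hE]; positivity
    _ = E := by rw [hE]; field_simp

/-- Dependent heights: simultaneous moves. PROOF: as in H25R/MoveDep.lean. -/
theorem cmove_dep (C : Cyl S) [Fintype S] {s t : S} {r ρ : ℝ} (hg : CGen C s r) (m l : ℤ)
    (hm : m ≠ 0) (n : S → ℤ)
    (hrel : m * (ρ / C.L t) = (∑ z, (n z : ℝ) * (C.w z / C.L z)) + l * (r / C.L s)) (U : ℝ)
    {c₀ u v : ℝ} (h : CLine C c₀ s (u - m * C.L s * U) r t (v - l * C.L t * U) ρ) (s₀ : ℝ) :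
    ∃ c : ℝ, s₀ < c ∧ CLine C c s u r t v ρ := by
  obtain ⟨ε, hε, hT⟩ := chmove C h
  set B : ℝ := 1 + ∑ z, C.L z with hBdef
  have hsum : 0 ≤ ∑ z, C.L z := Finset.sum_nonneg fun z _ => (C.L_pos z).le
  have hB : 0 < B := by rw [hBdef]; linarith
  have hWB : ∀ z, C.L z ≤ B := by
    intro z
    have := Finset.single_le_sum (f := fun z => C.L z) (fun z _ => (C.L_pos z).le)
      (Finset.mem_univ z)
    rw [hBdef]
    linarith
  obtain ⟨τ, hτT, hτ⟩ := Pool.Agent.Lib.H25R.kronecker (ι := S ⊕ Fin 2)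
    (Sum.elim (fun z => C.w z / C.L z) ![r / C.L s, ρ / C.L t])
    (Sum.elim (fun _ => 0) ![m * U, l * U]) (by
      intro f hf
      refine ⟨0, ?_⟩
      rw [Fintype.sum_sum_type, Fin.sum_univ_two] at hf ⊢
      simp only [Sum.elim_inl, Sum.elim_inr, Matrix.cons_val_zero, Matrix.cons_val_one] at hf ⊢
      have h1 := hg (fun z => m * f (Sum.inl z) + f (Sum.inr 1) * n z)
        (m * f (Sum.inr 0) + f (Sum.inr 1) * l) (by
          have h2 : (∑ z, ((m * f (Sum.inl z) + f (Sum.inr 1) * n z : ℤ) : ℝ) *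
              (C.w z / C.L z)) = m * (∑ z, (f (Sum.inl z) : ℝ) * (C.w z / C.L z)) +
              f (Sum.inr 1) * ∑ z, (n z : ℝ) * (C.w z / C.L z) := by
            rw [Finset.mul_sum, Finset.mul_sum, ← Finset.sum_add_distrib]
            refine Finset.sum_congr rfl fun z _ => ?_
            push_cast
            ring
          rw [h2]
          push_cast
          linear_combination (m : ℝ) * hf - (f (Sum.inr 1) : ℝ) * hrel)
      have h3 : ((m : ℝ) * f (Sum.inr 0) + f (Sum.inr 1) * l) = 0 := by exact_mod_cast h1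
      simp only [mul_zero, Finset.sum_const_zero, zero_add, Int.cast_zero]
      linear_combination U * h3) (ε / B) (by positivity) (s₀ + 1 - c₀)
  obtain ⟨c, hc, hl⟩ := hT τ (by
      intro z
      obtain ⟨k, hk⟩ := hτ (Sum.inl z)
      simp only [Sum.elim_inl] at hk
      refine ⟨k, ?_⟩
      have h3 := cmd_aux (p := C.w z) (q := 0) (m := k) (C.L_pos z) hB (hWB z) rfl hε
        (by simpa using hk)
      simpa using h3) u v (by
      obtain ⟨k, hk⟩ := hτ (Sum.inr 0)
      simp only [Sum.elim_inr, Matrix.cons_val_zero] at hk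
      refine ⟨-k, ?_⟩
      have h3 := cmd_aux (C.L_pos s) hB (hWB s) rfl hε hk
      rw [← abs_neg] at h3
      have e : u - τ * r - (u - m * C.L s * U) - ((-k : ℤ) : ℝ) * C.L s =
          -(τ * r - m * U * C.L s - k * C.L s) := by
        push_cast
        ring
      rw [e]
      exact h3) (by
      obtain ⟨k, hk⟩ := hτ (Sum.inr 1)
      simp only [Sum.elim_inr, Matrix.cons_val_one] at hk
      refine ⟨-k, ?_⟩
      have h3 := cmd_aux (C.L_pos t) hB (hWB t) rfl hε hk
      rw [← abs_neg] at h3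
      have e : v - τ * ρ - (v - l * C.L t * U) - ((-k : ℤ) : ℝ) * C.L t =
          -(τ * ρ - l * U * C.L t - k * C.L t) := by
        push_cast
        ring
      rw [e]
      exact h3)
  refine ⟨c, ?_, hl⟩
  have h4 := (abs_lt.1 hc).1
  linarith

end Pool.Agent.Lib.H42D
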