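import Pool.Agent.Lib.H42D.CHMove
import Pool.Agent.Lib.H25R.Kron

/-! # Chunk CMoveFix (S/M): port of H25R/MoveFix -/

namespace Pool.Agent.Lib.H42D

variable {S : Type}

private theorem cmx_aux {w t p q e E B : ℝ} {m : ℤ} (hw : 0 < w) (hB : 0 < B) (hwB : w ≤ B)
    (hE : e = E / B) (hE0 : 0 < E) (h : |t * (p / w) - q / w - m| < e) :
    |t * p - q - m * w| < E := by
  have h1 : t * p - q - m * w = (t * (p / w) - q / w - m) * w := by
    field_simp
  rw [h1, abs_mul, abs_of_pos hw]
  calc |t * (p / w) - q / w - m| * w < e * w := mul_lt_mul_of_pos_right h hw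
    _ ≤ e * B := by
        apply mul_le_mul_of_nonneg_left hwB
        rw [hE]; positivity
    _ = E := by rw [hE]; field_simp

/-- A rational end point stays, the start is free. PROOF: as in H25R/MoveFix.lean. -/
theorem cmove_fix (C : Cyl S) [Fintype S] {s t : S} {r ρ : ℝ} (hg : CGen C s r) (hR : CRat C t ρ)
    {c₀ u' v : ℝ} (h : CLine C c₀ s u' r t v ρ) (u s₀ : ℝ) :
    ∃ c : ℝ, s₀ < c ∧ CLine C c s u r t v ρ := by
  obtain ⟨m₀, n₀, hm₀, hrel⟩ := hR
  obtain ⟨ε, hε, hT⟩ := chmove C h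
  set B : ℝ := 1 + ∑ z, C.L z with hBdef
  have hsum : 0 ≤ ∑ z, C.L z := Finset.sum_nonneg fun z _ => (C.L_pos z).le
  have hB : 0 < B := by rw [hBdef]; linarith
  have hWB : ∀ z, C.L z ≤ B := by
    intro z
    have := Finset.single_le_sum (f := fun z => C.L z) (fun z _ => (C.L_pos z).le)
      (Finset.mem_univ z)
    rw [hBdef]
    linarith
  obtain ⟨τ, hτT, hτ⟩ := Pool.Agent.Lib.H25R.kronecker (ι := S ⊕ Fin 2)
    (Sum.elim (fun z => C.w z / C.L z) ![r / C.L s, ρ / C.L t])
    (Sum.elim (fun _ => 0) ![(u - u') / C.L s, 0]) (by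
      intro q hq
      rw [Fintype.sum_sum_type, Fin.sum_univ_two] at hq ⊢
      simp only [Sum.elim_inl, Sum.elim_inr, Matrix.cons_val_zero, Matrix.cons_val_one] at hq ⊢
      have hk : q (Sum.inr 0) * m₀ = 0 := by
        refine hg (fun z => m₀ * q (Sum.inl z) + q (Sum.inr 1) * n₀ z) (q (Sum.inr 0) * m₀) ?_
        have e1 : ∑ z, ((m₀ * q (Sum.inl z) + q (Sum.inr 1) * n₀ z : ℤ) : ℝ) * (C.w z / C.L z)
            = m₀ * ∑ z, (q (Sum.inl z) : ℝ) * (C.w z / C.L z)
              + q (Sum.inr 1) * ∑ z, (n₀ z : ℝ) * (C.w z / C.L z) := by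
          rw [Finset.mul_sum, Finset.mul_sum, ← Finset.sum_add_distrib]
          refine Finset.sum_congr rfl fun z _ => ?_
          push_cast
          ring
        rw [e1, ← hrel]
        push_cast
        linear_combination (m₀ : ℝ) * hq
      have hk0 : q (Sum.inr 0) = 0 := by
        rcases mul_eq_zero.mp hk with h | h
        · exact h
        · exact absurd h hm₀
      refine ⟨0, ?_⟩
      rw [hk0]
      simp) (ε / B) (by positivity) (s₀ + 1 - c₀)
  obtain ⟨c, hc, hl⟩ := hT τ (by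
      intro z
      obtain ⟨m, hm⟩ := hτ (Sum.inl z)
      simp only [Sum.elim_inl] at hm
      refine ⟨m, ?_⟩
      have h3 := cmx_aux (p := C.w z) (q := 0) (m := m) (C.L_pos z) hB (hWB z) rfl hε
        (by simpa using hm)
      simpa using h3) u v (by
      obtain ⟨m, hm⟩ := hτ (Sum.inr 0)
      simp only [Sum.elim_inr, Matrix.cons_val_zero] at hm
      refine ⟨-m, ?_⟩
      have h3 := cmx_aux (C.L_pos s) hB (hWB s) rfl hε hm
      rw [← abs_neg] at h3
      have e : u - τ * r - u' - ((-m : ℤ) : ℝ) * C.L s = -(τ * r - (u - u') - m * C.L s) := by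
        push_cast
        ring
      rw [e]
      exact h3) (by
      obtain ⟨m, hm⟩ := hτ (Sum.inr 1)
      simp only [Sum.elim_inr, Matrix.cons_val_one] at hm
      refine ⟨-m, ?_⟩
      have h3 := cmx_aux (p := ρ) (q := 0) (m := m) (C.L_pos t) hB (hWB t) rfl hε
        (by simpa using hm)
      rw [← abs_neg] at h3
      have e : v - τ * ρ - v - ((-m : ℤ) : ℝ) * C.L t = -(τ * ρ - 0 - m * C.L t) := by
        push_cast
        ring
      rw [e]
      exact h3)
  refine ⟨c, ?_, hl⟩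
  have h4 := (abs_lt.1 hc).1
  linarith

end Pool.Agent.Lib.H42D
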