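import Mathlib

/-!
# H42D: surfaces decomposed into finitely many horizontal cylinders; straight segments (MP_273810)

A cylinder `s` has the height `w s` and the circumference `L s`; a point is `(s, u, r)` with the
position `u` (modulo `L s`) and the height `r`. `Cross s u s' u'`: the point `u` of the upper boundary
of `s` is no singularity and is the point `u'` of the lower boundary of `s'`.
-/

namespace Pool.Agent.Lib.H42D

structure Cyl (S : Type) where
  w : S → ℝ
  L : S → ℝ
  w_pos : ∀ s, 0 < w s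
  L_pos : ∀ s, 0 < L s
  Cross : S → ℝ → S → ℝ → Prop
  cross_open : ∀ s u s' u', Cross s u s' u' →
    ∃ ε > 0, ∀ ζ : ℝ, |ζ| < ε → Cross s (u + ζ) s' (u' + ζ)
  cross_per : ∀ s u s' u' (m : ℤ), Cross s u s' u' → Cross s (u + m * L s) s' u'

variable {S : Type}

/-- The straight segment of slope `c = du/dr` from `(s, u, r)` to `(t, v, ρ)`, `0 < ρ ≤ w t`, one
cylinder at a time; positions are taken modulo the circumference. -/
inductive CLine (C : Cyl S) (c : ℝ) : S → ℝ → ℝ → S → ℝ → ℝ → Prop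
  | here (s : S) (u r v ρ : ℝ) (m : ℤ) (hr : r < ρ) (hρ : ρ ≤ C.w s)
      (hv : v = u + c * (ρ - r) + m * C.L s) : CLine C c s u r s v ρ
  | up (s : S) (u r : ℝ) (s₁ : S) (u₁ : ℝ) (t : S) (v ρ : ℝ) (hr : r < C.w s)
      (hx : C.Cross s (u + c * (C.w s - r)) s₁ u₁) (hl : CLine C c s₁ u₁ 0 t v ρ) :
      CLine C c s u r t v ρ

/-- `r` (a height in the cylinder `s`) is generic: `r / L s` is no rational combination of the
numbers `w z / L z`. -/
def CGen (C : Cyl S) [Fintype S] (s : S) (r : ℝ) : Prop :=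
  ∀ (n : S → ℤ) (k : ℤ), (∑ z, (n z : ℝ) * (C.w z / C.L z)) + k * (r / C.L s) = 0 → k = 0

/-- two independent heights -/
def CIndep (C : Cyl S) [Fintype S] (s : S) (r : ℝ) (t : S) (ρ : ℝ) : Prop :=
  ∀ (n : S → ℤ) (k l : ℤ),
    (∑ z, (n z : ℝ) * (C.w z / C.L z)) + k * (r / C.L s) + l * (ρ / C.L t) = 0 → k = 0 ∧ l = 0

/-- a rational height: `m (ρ / L t) = Σ n z (w z / L z)` with `m ≠ 0` -/
def CRat (C : Cyl S) [Fintype S] (t : S) (ρ : ℝ) : Prop :=
  ∃ (m : ℤ) (n : S → ℤ), m ≠ 0 ∧ m * (ρ / C.L t) = ∑ z, (n z : ℝ) * (C.w z / C.L z)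

/-- The countable field generated by the heights and circumferences. -/
noncomputable def KF (C : Cyl S) : Subfield ℝ := Subfield.closure (Set.range C.w ∪ Set.range C.L)

end Pool.Agent.Lib.H42D
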