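import Mathlib
import Pool.Agent.Lib.H32W.OpenDense

/-!
# MP_273810_co, H25D: an open dense set of pairs (polygon, point), and generic polygons (library H42D, helper42)
-/

open Set Metric Filter Topology

namespace Pool.Agent.Lib.H42D

open Pool.Agent.Lib.H42I (Ray IsPolygon Illuminable)
open Pool.Agent.Lib.H32W (GoodArr ClassLit robust_metric isOpen_simple)
open Pool.Agent.H52W (SimpleV)
open Pool.Agent.Lib.H23D (Cls dense_cls)

/-- A polygon of the dense class is illuminated, with good arrivals, from points which are dense in the polygon. -/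
def ClassLit2 (n : ℕ) [NeZero n] : Prop :=
  ∀ (P : Set ℂ) (v : ZMod n → ℂ) (N : ℕ) (k : ZMod n → ℤ), IsPolygon P v → Cls v N k →
    ∀ q₀ ∈ interior P, ∀ ε : ℝ, 0 < ε → ∃ q ∈ interior P, ‖q - q₀‖ < ε ∧
      ∀ y ∈ P, y = q ∨ ∃ d, Ray P v q y d ∧ GoodArr v y d

theorem classLit_of2 {n : ℕ} [NeZero n] (h : ClassLit2 n) : ClassLit n := by
  intro P v N k hP hv
  obtain ⟨q₀, hq₀⟩ := hP.connected.nonempty
  obtain ⟨q, hq, _, hall⟩ := h P v N k hP hv q₀ hq₀ 1 one_pos
  exact ⟨q, hq, hall⟩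

/-- The good pairs: `P` is illuminable from `q` and this persists for all small perturbations of both. -/
def Good (n : ℕ) : Set ((ZMod n → ℂ) × ℂ) :=
  {x | ∃ ε : ℝ, 0 < ε ∧ ∀ (P : Set ℂ) (v : ZMod n → ℂ) (q : ℂ), IsPolygon P v → (∀ i, ‖v i - x.1 i‖ < ε) →
    ‖q - x.2‖ < ε → q ∈ interior P ∧ Illuminable P v q}

theorem isOpen_good (n : ℕ) [NeZero n] : IsOpen (Good n) := by
  rw [Metric.isOpen_iff]
  rintro ⟨v₀, q₀⟩ ⟨ε, hε, h⟩
  refine ⟨ε / 2, by linarith, ?_⟩
  rintro ⟨w, p⟩ hw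
  rw [mem_ball, Prod.dist_eq, max_lt_iff] at hw
  obtain ⟨hw1, hw2⟩ := hw
  rw [dist_pi_lt_iff (by linarith)] at hw1
  refine ⟨ε / 2, by linarith, ?_⟩
  intro P v q hP hv hq
  apply h P v q hP
  · intro i
    have h1 := hv i
    have h2 := hw1 i
    rw [dist_eq_norm] at h2
    have h3 : ‖v i - v₀ i‖ ≤ ‖v i - w i‖ + ‖w i - v₀ i‖ := by
      have e : v i - v₀ i = (v i - w i) + (w i - v₀ i) := by ring
      rw [e]; exact norm_add_le _ _
    show ‖v i - v₀ i‖ < ε
    have h1' : ‖v i - w i‖ < ε / 2 := h1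
    have h2' : ‖w i - v₀ i‖ < ε / 2 := h2
    linarith
  · have h2 : ‖p - q₀‖ < ε / 2 := by rw [dist_eq_norm] at hw2; exact hw2
    have h1 : ‖q - p‖ < ε / 2 := hq
    have h3 : ‖q - q₀‖ ≤ ‖q - p‖ + ‖p - q₀‖ := by
      have e : q - q₀ = (q - p) + (p - q₀) := by ring
      rw [e]; exact norm_add_le _ _
    show ‖q - q₀‖ < ε
    linarith

/-- An open dense set of pairs. -/
theorem dense_good {n : ℕ} [NeZero n] (hcl : ClassLit2 n) (P : Set ℂ) (v : ZMod n → ℂ) (q : ℂ)
    (hP : IsPolygon P v) (hq : q ∈ interior P) : (v, q) ∈ closure (Good n) := by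
  rw [Metric.mem_closure_iff]
  intro ε hε
  have hv' : SimpleV v := Pool.Agent.H52W.simpleV_of_polygon hP
  -- near v the point q stays inside, and simple
  have h1 := Pool.Agent.H52W.inside_stable P v hP q hq
  obtain ⟨r, hr, hev⟩ := h1
  obtain ⟨ε₂, hε₂, h2⟩ := Metric.eventually_nhds_iff.1 hev
  obtain ⟨ε₁, hε₁, h3⟩ := Metric.isOpen_iff.1 isOpen_simple v hv'
  have hm : 0 < min ε (min ε₁ ε₂) := lt_min hε (lt_min hε₁ hε₂)
  obtain ⟨w, N, k, _, hw, hwv⟩ := dense_cls hv'.three_le v (fun i => (hv'.ne_succ i).symm) hm 0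
  have hdist : dist w v < min ε (min ε₁ ε₂) := by
    rw [dist_pi_lt_iff hm]
    intro i
    rw [dist_eq_norm]
    exact hwv i
  have hws : SimpleV w := h3 (hdist.trans_le ((min_le_right _ _).trans (min_le_left _ _)))
  obtain ⟨P', hP', _⟩ := Pool.Agent.H52W.exists_polygon hws
  have hin : q ∈ interior P' := (h2 (hdist.trans_le ((min_le_right _ _).trans (min_le_right _ _))) P' hP')
    (mem_ball_self hr)
  obtain ⟨q', hq', hqq, hall⟩ := hcl P' w N k hP' hw q hin ε hε
  obtain ⟨δ, hδ, h4⟩ := robust_metric P' w hP' (Pool.Agent.H52W.facts hP') q' hq' hall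
  obtain ⟨r', hr', hev'⟩ := Pool.Agent.H52W.inside_stable P' w hP' q' hq'
  obtain ⟨δ', hδ', h5⟩ := Metric.eventually_nhds_iff.1 hev'
  refine ⟨(w, q'), ⟨min (min δ δ') r', lt_min (lt_min hδ hδ') hr', ?_⟩, ?_⟩
  · intro P'' v'' q'' hP'' hv'' hq''
    have e1 : min (min δ δ') r' ≤ δ := (min_le_left _ _).trans (min_le_left _ _)
    have e2 : min (min δ δ') r' ≤ δ' := (min_le_left _ _).trans (min_le_right _ _)
    have e3 : min (min δ δ') r' ≤ r' := min_le_right _ _
    refine ⟨?_, h4 P'' v'' hP'' (fun i => (hv'' i).trans_le e1) q'' (hq''.trans_le e1)⟩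
    have h6 : dist v'' w < δ' := by
      rw [dist_pi_lt_iff hδ']
      intro i
      rw [dist_eq_norm]
      exact (hv'' i).trans_le e2
    apply h5 h6 P'' hP''
    rw [mem_ball, dist_eq_norm]
    exact hq''.trans_le e3
  · rw [Prod.dist_eq, max_lt_iff]
    constructor
    · rw [dist_comm]; exact hdist.trans_le (min_le_left _ _)
    · rw [dist_eq_norm, norm_sub_rev]; exact hqq

/-- For a comeagre set of vertex tuples the points of illumination contain a dense open subset of the polygon. -/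
theorem residual_good {n : ℕ} [NeZero n] (hcl : ClassLit2 n) :
    ∀ᶠ v in residual (ZMod n → ℂ), ∀ P, IsPolygon P v →
      P ⊆ closure (interior {q | q ∈ P ∧ Illuminable P v q}) := by
  obtain ⟨b, hbc, _, hb⟩ := TopologicalSpace.exists_countable_basis ℂ
  let A : Set ℂ → Set (ZMod n → ℂ) := fun B => {v | ∃ q ∈ B, (v, q) ∈ Good n}
  let C : Set ℂ → Set (ZMod n → ℂ) := fun B => interior {v | ∀ P, IsPolygon P v → B ∩ interior P = ∅}
  have hAo : ∀ B ∈ b, IsOpen (A B) := by
    intro B _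
    rw [isOpen_iff_mem_nhds]
    rintro v ⟨q, hq, hvq⟩
    have h1 : Continuous (fun w : ZMod n → ℂ => (w, q)) := by fun_prop
    filter_upwards [(h1.continuousAt (x := v)).preimage_mem_nhds ((isOpen_good n).mem_nhds hvq)] with w hw
    exact ⟨q, hq, hw⟩
  have hU : ∀ B ∈ b, A B ∪ C B ∈ residual (ZMod n → ℂ) := by
    intro B hB
    have hBo : IsOpen B := hb.isOpen hB
    apply residual_of_dense_open ((hAo B hB).union isOpen_interior)
    intro v
    rw [_root_.mem_closure_iff]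
    intro V hV hvV
    by_cases h : ∃ w ∈ V, ∃ P, IsPolygon P w ∧ (B ∩ interior P).Nonempty
    · obtain ⟨w, hwV, P, hP, q, hqB, hqP⟩ := h
      have h1 := dense_good hcl P w q hP hqP
      rw [_root_.mem_closure_iff] at h1
      obtain ⟨⟨w', q'⟩, ⟨h2, h3⟩, h4⟩ := h1 (V ×ˢ B) (hV.prod hBo) ⟨hwV, hqB⟩
      exact ⟨w', h2, Or.inl ⟨q', h3, h4⟩⟩
    · refine ⟨v, hvV, Or.inr ?_⟩
      apply mem_interior.2
      refine ⟨V, ?_, hV, hvV⟩
      intro w hw P hP
      by_contra hne
      exact h ⟨w, hw, P, hP, Set.nonempty_iff_ne_empty.2 hne⟩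
  have hall : ∀ᶠ v in residual (ZMod n → ℂ), ∀ B ∈ b, v ∈ A B ∪ C B :=
    (eventually_countable_ball hbc).2 hU
  filter_upwards [hall] with v hv P hP
  have hkey : interior P ⊆ closure (interior {q | q ∈ P ∧ Illuminable P v q}) := by
    intro q₀ hq₀
    rw [_root_.mem_closure_iff]
    intro V hV hqV
    obtain ⟨B, hB, hqB, hBV⟩ := hb.exists_subset_of_mem_open (⟨hqV, hq₀⟩ : q₀ ∈ V ∩ interior P)
      (hV.inter isOpen_interior)
    rcases hv B hB with ⟨q, hqB', hgood⟩ | hC
    · refine ⟨q, (hBV hqB').1, ?_⟩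
      rw [mem_interior_iff_mem_nhds]
      have h1 : Continuous (fun p : ℂ => (v, p)) := by fun_prop
      filter_upwards [(h1.continuousAt (x := q)).preimage_mem_nhds ((isOpen_good n).mem_nhds hgood)] with p hp
      obtain ⟨ε, hε, h2⟩ := hp
      obtain ⟨h3, h4⟩ := h2 P v p hP (fun i => by simpa using hε) (by simpa using hε)
      exact ⟨interior_subset h3, h4⟩
    · exfalso
      have h1 := interior_subset hC P hP
      have h2 : q₀ ∈ B ∩ interior P := ⟨hqB, hq₀⟩
      rw [h1] at h2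
      exact h2
  calc P = closure (interior P) := hP.closure_interior.symm
    _ ⊆ closure (closure (interior {q | q ∈ P ∧ Illuminable P v q})) := closure_mono hkey
    _ = _ := isClosed_closure.closure_eq

/-- Assembly: an open dense set of pairs, generic polygons, an open dense set of polygons. -/
theorem pairs {n : ℕ} [NeZero n] (hcl : ClassLit2 n) :
    (∃ O : Set ((ZMod n → ℂ) × ℂ), IsOpen O ∧
      (∀ v q, (v, q) ∈ O → ∀ P, IsPolygon P v → q ∈ interior P ∧ Illuminable P v q) ∧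
      (∀ P v q, IsPolygon P v → q ∈ interior P → (v, q) ∈ closure O)) ∧
    (∀ᶠ v in residual (ZMod n → ℂ), ∀ P, IsPolygon P v →
      P ⊆ closure (interior {q | q ∈ P ∧ Illuminable P v q})) := by
  refine ⟨⟨Good n, isOpen_good n, ?_, fun P v q => dense_good hcl P v q⟩, residual_good hcl⟩
  rintro v q ⟨ε, hε, h⟩ P hP
  exact h P v q hP (fun i => by simpa using hε) (by simpa using hε)

end Pool.Agent.Lib.H42D
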