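import Mathlib
import Pool.Agent.Lib.H42D.Pairs
import Pool.Agent.Lib.H25D.AreaForm

/-!
# MP_273810_co, H25D: generic polygons are illuminable from almost every point (library H42D, helper42)
-/

open Set Metric Filter Topology MeasureTheory

namespace Pool.Agent.Lib.H42D

open Pool.Agent.Lib.H42I (Ray IsPolygon Illuminable)
open Pool.Agent.H52W (SimpleV)
open Pool.Agent.Lib.H25D (ClassLitAE open_dense_area)

theorem classLit2_ofAE {n : ℕ} [NeZero n] (h : ClassLitAE n) : ClassLit2 n := by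
  intro P v N k hP hv q₀ hq₀ ε hε
  obtain ⟨Z, hZ, hall⟩ := h P v N k hP hv
  have hopen : IsOpen (interior P ∩ ball q₀ ε) := isOpen_interior.inter isOpen_ball
  have hpos : 0 < volume (interior P ∩ ball q₀ ε) :=
    hopen.measure_pos volume ⟨q₀, hq₀, mem_ball_self hε⟩
  obtain ⟨q, ⟨hq1, hq2⟩, hqZ⟩ : ∃ q ∈ interior P ∩ ball q₀ ε, q ∉ Z := by
    by_contra hcon
    push Not at hcon
    have h1 : volume (interior P ∩ ball q₀ ε) ≤ volume Z := measure_mono hcon
    rw [hZ] at h1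
    exact absurd hpos (not_lt.2 h1)
  refine ⟨q, hq1, ?_, hall q hq1 hqZ⟩
  rw [← dist_eq_norm]
  exact hq2

/-- For a comeagre set of vertex tuples the polygon is illuminable from almost every point, and from all points of a
dense open set of full measure. -/
theorem residual_area {n : ℕ} [NeZero n] (hcl : ClassLitAE n) :
    ∀ᶠ v in residual (ZMod n → ℂ), ∀ P, IsPolygon P v → ∃ U : Set ℂ, IsOpen U ∧ U ⊆ interior P ∧
      P ⊆ closure U ∧ volume (P \ U) = 0 ∧ ∀ q ∈ U, Illuminable P v q := by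
  have h1 : ∀ k : ℕ, ∃ O : Set (ZMod n → ℂ), IsOpen O ∧ O ⊆ {v | SimpleV v} ∧ {v | SimpleV v} ⊆ closure O ∧
      ∀ v ∈ O, ∃ P : Set ℂ, IsPolygon P v ∧ (∀ P', IsPolygon P' v → P' = P) ∧
        ∃ U : Set ℂ, IsOpen U ∧ U.Nonempty ∧ U ⊆ interior P ∧
          volume (P \ U) < ENNReal.ofReal (1 / ((k : ℝ) + 1)) ∧ ∀ q ∈ U, Illuminable P v q :=
    fun k => open_dense_area hcl (1 / ((k : ℝ) + 1)) (by positivity)
  choose O hO1 hO2 hO3 hO4 using h1
  have h2 : ∀ k, ∀ᶠ v in residual (ZMod n → ℂ), v ∈ O k ∪ (closure (O k))ᶜ := by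
    intro k
    apply residual_of_dense_open ((hO1 k).union isClosed_closure.isOpen_compl)
    intro v
    by_cases h : v ∈ closure (O k)
    · exact closure_mono subset_union_left h
    · exact subset_closure (Or.inr h)
  filter_upwards [eventually_countable_forall.2 h2] with v hv P hP
  have hs : SimpleV v := Pool.Agent.H52W.simpleV_of_polygon hP
  have hvO : ∀ k, v ∈ O k := fun k => (hv k).resolve_right (fun h => h (hO3 k hs))
  have h3 : ∀ k : ℕ, ∃ U : Set ℂ, IsOpen U ∧ U ⊆ interior P ∧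
      volume (P \ U) < ENNReal.ofReal (1 / ((k : ℝ) + 1)) ∧ ∀ q ∈ U, Illuminable P v q := by
    intro k
    obtain ⟨P', _, hu, U, hU1, _, hU2, hU3, hU4⟩ := hO4 k v (hvO k)
    have e : P = P' := hu P hP
    rw [← e] at hU2 hU3 hU4
    exact ⟨U, hU1, hU2, hU3, hU4⟩
  choose U hU1 hU2 hU3 hU4 using h3
  have hnull : volume (P \ ⋃ k, U k) = 0 := by
    have h4 : ∀ k : ℕ, volume (P \ ⋃ k, U k) ≤ ENNReal.ofReal (1 / ((k : ℝ) + 1)) := by
      intro k
      refine le_trans (measure_mono ?_) (hU3 k).le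
      exact diff_subset_diff_right (subset_iUnion U k)
    have h5 : Tendsto (fun k : ℕ => ENNReal.ofReal (1 / ((k : ℝ) + 1))) atTop (𝓝 0) := by
      have h6 := ENNReal.tendsto_ofReal tendsto_one_div_add_atTop_nhds_zero_nat
      rwa [ENNReal.ofReal_zero] at h6
    exact le_antisymm (ge_of_tendsto' h5 h4) zero_le
  refine ⟨⋃ k, U k, isOpen_iUnion hU1, iUnion_subset hU2, ?_, hnull, ?_⟩
  · have hkey : interior P ⊆ closure (⋃ k, U k) := by
      intro q₀ hq₀
      rw [_root_.mem_closure_iff]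
      intro V hV hqV
      have hpos : 0 < volume (V ∩ interior P) :=
        (hV.inter isOpen_interior).measure_pos volume ⟨q₀, hqV, hq₀⟩
      by_contra hcon
      have h4 : V ∩ interior P ⊆ P \ ⋃ k, U k := by
        rintro x ⟨hx1, hx2⟩
        refine ⟨interior_subset hx2, fun hx3 => hcon ⟨x, hx1, hx3⟩⟩
      have h5 := measure_mono (μ := volume) h4
      rw [hnull] at h5
      exact absurd hpos (not_lt.2 h5)
    calc P = closure (interior P) := hP.closure_interior.symm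
      _ ⊆ closure (closure (⋃ k, U k)) := closure_mono hkey
      _ = _ := isClosed_closure.closure_eq
  · intro q hq
    obtain ⟨k, hk⟩ := mem_iUnion.1 hq
    exact hU4 k q hk

/-- The final statement. -/
theorem final {n : ℕ} [NeZero n] (hcl : ClassLitAE n) :
    (∃ O : Set ((ZMod n → ℂ) × ℂ), IsOpen O ∧
      (∀ v q, (v, q) ∈ O → ∀ P, IsPolygon P v → q ∈ interior P ∧ Illuminable P v q) ∧
      (∀ P v q, IsPolygon P v → q ∈ interior P → (v, q) ∈ closure O)) ∧
    (∀ η : ℝ, 0 < η → ∃ O : Set (ZMod n → ℂ), IsOpen O ∧ O ⊆ {v | SimpleV v} ∧ {v | SimpleV v} ⊆ closure O ∧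
      ∀ v ∈ O, ∃ P : Set ℂ, IsPolygon P v ∧ (∀ P', IsPolygon P' v → P' = P) ∧
        ∃ U : Set ℂ, IsOpen U ∧ U.Nonempty ∧ U ⊆ interior P ∧
          volume (P \ U) < ENNReal.ofReal η ∧ ∀ q ∈ U, Illuminable P v q) ∧
    (∀ᶠ v in residual (ZMod n → ℂ), ∀ P, IsPolygon P v → ∃ U : Set ℂ, IsOpen U ∧ U ⊆ interior P ∧
      P ⊆ closure U ∧ volume (P \ U) = 0 ∧ ∀ q ∈ U, Illuminable P v q) :=
  ⟨(pairs (classLit2_ofAE hcl)).1, fun η hη => open_dense_area hcl η hη, residual_area hcl⟩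

end Pool.Agent.Lib.H42D
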